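import Mathlib

/-!
# Components of nondeterministic sets: statement of a part
-/

set_option autoImplicit false

namespace Pool.Agent.W966.Vg

open MvPolynomial

/-- **VH-RES**: elimination of the parameter of a line. -/
def S_RES : Prop :=
  ∀ (K ι : Type) [Field K] [Fintype ι] (f g : MvPolynomial ι K) (a : ι → K), IsRelPrime f g →
    ∃ R : MvPolynomial ι K, R ≠ 0 ∧ ∀ (x : ι → K) (y : K),
      eval (fun i => x i + y * a i) f = 0 → eval (fun i => x i + y * a i) g = 0 → eval x R = 0

end Pool.Agent.W966.Vg
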