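import Mathlib

/-!
# Nondeterministic verification of polynomial maps: definitions
-/

set_option autoImplicit false

namespace Pool.Agent.W966.Vg

open MvPolynomial

/-- A linear combination, with coefficients in `K`, of `1`, of the inputs and of results. -/
structure LF (K ι : Type) where
  /-- the constant -/
  c : K
  /-- the coefficients of the inputs -/
  x : ι → K
  /-- the coefficients of the results -/
  r : ℕ → K

/-- The value of the linear combination, in a `K`-algebra, when the inputs are `x i` and
`g 0, …, g (l - 1)` are the results obtained before. -/
def LF.val {K ι R : Type} [CommRing K] [CommRing R] [Algebra K R] [Fintype ι] (f : LF K ι)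
    (x : ι → R) (l : ℕ) (g : ℕ → R) : R :=
  algebraMap K R f.c + ∑ i, algebraMap K R (f.x i) * x i +
    ∑ s ∈ Finset.range l, algebraMap K R (f.r s) * g s

/-- Nondeterministic algebraic computation trees over `K` with inputs `x i`. Such a tree can
multiply or divide two available linear combinations, guess an element of `K`, test whether a linear
combination is `0` and branch, choose one of `m + 1` continuations (nondeterministically or at
random), accept and reject. The results of the multiplications and divisions and the guessed
elements can be used in all later linear combinations. -/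
inductive NTree (K ι : Type) : Type
  | accept : NTree K ι
  | reject : NTree K ι
  | mul (f h : LF K ι) (next : NTree K ι) : NTree K ι
  | div (f h : LF K ι) (next : NTree K ι) : NTree K ι
  | guess (next : NTree K ι) : NTree K ι
  | test (f : LF K ι) (yes no : NTree K ι) : NTree K ι
  | choose (m : ℕ) (next : Fin (m + 1) → NTree K ι) : NTree K ι

/-- The tree can accept the input `x`, from the state in which `g 0, …, g (l - 1)` are the results
and guesses so far, with at most `L` multiplications and divisions: for some guesses and some
choices it makes at most `L` multiplications and divisions, no division by `0`, and accepts.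
Additions, subtractions, multiplications by constants, tests, guesses and choices are free. -/
def NTree.Acc {K ι : Type} [Field K] [Fintype ι] (x : ι → K) :
    NTree K ι → ℕ → (ℕ → K) → ℕ → Prop
  | .accept, _, _, _ => True
  | .reject, _, _, _ => False
  | .mul f h next, l, g, L => 0 < L ∧ next.Acc x (l + 1)
      (Function.update g l (f.val x l g * h.val x l g)) (L - 1)
  | .div f h next, l, g, L => 0 < L ∧ h.val x l g ≠ 0 ∧ next.Acc x (l + 1)
      (Function.update g l (f.val x l g / h.val x l g)) (L - 1)
  | .guess next, l, g, L => ∃ v : K, next.Acc x (l + 1) (Function.update g l v) L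
  | .test f yes no, l, g, L => (f.val x l g = 0 ∧ yes.Acc x l g L) ∨
      (f.val x l g ≠ 0 ∧ no.Acc x l g L)
  | .choose _ next, l, g, L => ∃ i, (next i).Acc x l g L

/-- The tree can accept the input `x` with at most `L` multiplications and divisions. -/
def NTree.Accepts {K ι : Type} [Field K] [Fintype ι] (t : NTree K ι) (x : ι → K) (L : ℕ) : Prop :=
  t.Acc x 0 0 L

/-- The polynomials `f v` can be computed, from the variables and constants of `R`, with `M`
multiplications and any number of additions and multiplications by constants: there are `g r`
(`r < M`), each a product of two linear combinations of `1`, the variables and the earlier `g s`,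
such that each `f v` is a linear combination of `1`, the variables and the `g r`. -/
def NSComp (R ι V : Type) [CommRing R] [Fintype ι] (M : ℕ) (f : V → MvPolynomial ι R) : Prop :=
  ∃ (a b : ℕ → LF R ι) (o : V → LF R ι) (g : ℕ → MvPolynomial ι R),
    (∀ r < M, g r = (a r).val X r g * (b r).val X r g) ∧ ∀ v, f v = (o v).val X M g

/-- The tuple `f` of polynomials lies in the Zariski closure of the set `C` of such tuples: every
polynomial in the coefficients which vanishes on `C` vanishes at `f`. -/
def InClosure {K ι V : Type} [Field K] (C : Set (V → MvPolynomial ι K))
    (f : V → MvPolynomial ι K) : Prop :=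
  ∀ h : MvPolynomial (V × (ι →₀ ℕ)) K,
    (∀ g ∈ C, eval (fun p => coeff p.2 (g p.1)) h = 0) →
      eval (fun p => coeff p.2 (f p.1)) h = 0

/-- The polynomials `f v` can be computed from the variables and constants of `K` with `r`
additions, subtractions and multiplications. -/
def SLComp (K ι V : Type) [Field K] (r : ℕ) (f : V → MvPolynomial ι K) : Prop :=
  ∃ g : ℕ → MvPolynomial ι K,
    (∀ s < r, ∃ p q : MvPolynomial ι K,
      ((∃ c, p = C c) ∨ (∃ i, p = X i) ∨ ∃ s' < s, p = g s') ∧
      ((∃ c, q = C c) ∨ (∃ i, q = X i) ∨ ∃ s' < s, q = g s') ∧
      (g s = p + q ∨ g s = p - q ∨ g s = p * q)) ∧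
    ∀ v, (∃ c, f v = C c) ∨ (∃ i, f v = X i) ∨ ∃ s' < r, f v = g s'

end Pool.Agent.W966.Vg
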