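import Pool.Agent.W966.Vg.Stms

/-!
# Nondeterministic decision of hypersurfaces: statements of the parts
-/

set_option autoImplicit false

namespace Pool.Agent.W966.Vg

open MvPolynomial Pool.Agent.W966.Vf

/-- **VH-TAY2**: `S_TAY` with the Taylor homomorphism `τ`. -/
def S_TAY2 : Prop :=
  ∀ (K F Ω ι σ J : Type) [Field K] [CharZero K] [Field F] [Algebra K F] [Field Ω] [Algebra F Ω]
    [Algebra K Ω] [IsScalarTower K F Ω] [Fintype ι] [Fintype σ] [Fintype J]
    (x : ι → F) (a : Fin 0 → F) (T : Set σ) (w₀ : σ → Ω) (g : ↥(Tᶜ) → PowerSeries Ω)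
    (γ : ↥(Tᶜ) → Ω) (e : ℕ) (α β δ : J → AF K (ι ⊕ Fin 0 ⊕ σ)) (c : ↥(Tᶜ) → J → K),
    AlgebraicIndependent K x →
    AlgebraicIndependent F (Sum.elim (fun s : T => w₀ s) γ) →
    (∀ v, PowerSeries.constantCoeff (g v) = 0) →
    (∀ b, ∑ j, algebraMap K (PowerSeries Ω) (c b j) *
      ((α j).val (pt x a T w₀ g) * (β j).val (pt x a T w₀ g) - (δ j).val (pt x a T w₀ g)) =
        PowerSeries.C (γ b) * PowerSeries.X ^ e) →
    ∃ (Ω' : Type) (_ : Field Ω') (_ : Algebra Ω Ω') (_ : Algebra K Ω') (u : ι → Ω')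
      (lam : (ι ⊕ Fin 0 ⊕ σ) → J → PowerSeries Ω) (mu : (ι ⊕ Fin 0 ⊕ σ) → ι → PowerSeries Ω)
      (W : ℕ → (ι ⊕ Fin 0 ⊕ σ) → PowerSeries Ω') (τ : F →+* PowerSeries Ω'),
      AlgebraicIndependent Ω u ∧
      (∀ z : K, algebraMap K Ω' z = algebraMap Ω Ω' (algebraMap K Ω z)) ∧
      TayRec α β e lam mu u W ∧
      (∀ z : K, τ (algebraMap K F z) = PowerSeries.C (algebraMap K Ω' z)) ∧
      (∀ i, τ (x i) = PowerSeries.C (algebraMap Ω Ω' (algebraMap F Ω (x i))) +
        PowerSeries.C (u i) * PowerSeries.X) ∧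
      (∀ z, PowerSeries.constantCoeff (τ z) = algebraMap Ω Ω' (algebraMap F Ω z)) ∧
      ∀ (o : AF K (ι ⊕ Fin 0 ⊕ σ)) (z : F),
        PowerSeries.constantCoeff (o.val (pt x a T w₀ g)) = algebraMap F Ω z →
        ∀ k, 1 ≤ k → PowerSeries.coeff k (τ z) = PowerSeries.constantCoeff (lin o (W k))

/-- **VH-REC2**: the recursion is a computation, every Taylor coefficient is an output. -/
def S_REC2 : Prop :=
  ∀ (K Ω Ω' ι N V J₂ : Type) [Field K] [Field Ω] [Algebra K Ω] [Field Ω'] [Algebra Ω Ω']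
    [Algebra K Ω'] [Fintype ι] [Fintype N] [Fintype V] [Fintype J₂] (L d e : ℕ)
    (α β : Fin L ⊕ J₂ → AF K N) (lam : N → Fin L ⊕ J₂ → PowerSeries Ω)
    (mu : N → ι → PowerSeries Ω) (u : ι → Ω') (W : ℕ → N → PowerSeries Ω')
    (o : V → AF K N) (κ : V → PowerSeries Ω),
    (∀ z : K, algebraMap K Ω' z = algebraMap Ω Ω' (algebraMap K Ω z)) →
    (∀ j, α (Sum.inr j) = 0) → TayRec α β e lam mu u W →
    ∃ G : V × Fin (d + 1) → MvPolynomial ι (PowerSeries Ω),
      (∀ v, MvPolynomial.eval₂ (PowerSeries.map (algebraMap Ω Ω'))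
        (fun i => PowerSeries.C (u i)) (G (v, 0)) = PowerSeries.X ^ (2 * d * e) *
          PowerSeries.map (algebraMap Ω Ω') (κ v)) ∧
      (∀ v k, k ≠ 0 → MvPolynomial.eval₂ (PowerSeries.map (algebraMap Ω Ω'))
        (fun i => PowerSeries.C (u i)) (G (v, k)) = PowerSeries.X ^ (2 * d * e) *
          lin (o v) (W k)) ∧
      NSComp (PowerSeries Ω) ι (V × Fin (d + 1)) (L * (d * (d - 1) / 2)) G

/-- The sum of the coefficients of `1, t, …, t ^ d` in `∏ (y - ∑ Y (v, k) t ^ k)`, where `y` is the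
variable `X none`. -/
noncomputable def prodE {P ι V : Type} [CommRing P] [Fintype V] (d : ℕ)
    (Y : V × Fin (d + 1) → MvPolynomial ι P) : MvPolynomial (Option ι) P :=
  ∑ k ∈ Finset.range (d + 1), Polynomial.coeff (∏ v, (Polynomial.C (X none) -
    ∑ k : Fin (d + 1), Polynomial.C (rename some (Y (v, k))) * Polynomial.X ^ (k : ℕ))) k

/-- **VH-PROD**: the product of truncated power series. -/
def S_PROD : Prop :=
  ∀ (P ι V : Type) [CommRing P] [Fintype ι] [Fintype V] (M d : ℕ)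
    (Y : V × Fin (d + 1) → MvPolynomial ι P), NSComp P ι (V × Fin (d + 1)) M Y →
    NSComp P (Option ι) Unit (M + Fintype.card V * ((d + 1) * (d + 2) / 2)) fun _ => prodE d Y

/-- **VH-ID**: the product over the conjugate roots. -/
def S_ID : Prop :=
  ∀ (K F Ω Ω' ι V : Type) [Field K] [Field F] [Algebra K F] [Field Ω] [Algebra F Ω]
    [Algebra K Ω] [IsScalarTower K F Ω] [Field Ω'] [Algebra Ω Ω'] [Algebra K Ω'] [Fintype ι]
    [Fintype V] (x : ι → F) (u : ι → Ω') (τ : F →+* PowerSeries Ω') (y : V → F) (d : ℕ)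
    (f : MvPolynomial (Option ι) K) (Y : V × Fin (d + 1) → MvPolynomial ι Ω),
    AlgebraicIndependent Ω u →
    (∀ z : K, algebraMap K Ω' z = algebraMap Ω Ω' (algebraMap K Ω z)) →
    (∀ z : K, τ (algebraMap K F z) = PowerSeries.C (algebraMap K Ω' z)) →
    (∀ i, τ (x i) = PowerSeries.C (algebraMap Ω Ω' (algebraMap F Ω (x i))) +
      PowerSeries.C (u i) * PowerSeries.X) →
    (∀ v k, aeval u (Y (v, k)) = PowerSeries.coeff (k : ℕ) (τ (y v))) →
    f.totalDegree ≤ d →
    (aeval (fun j => Option.elim j Polynomial.X fun i => Polynomial.C (x i) :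
      Option ι → Polynomial F) f = ∏ v, (Polynomial.X - Polynomial.C (y v))) →
    prodE d Y = aeval (fun j => Option.elim j (X none) fun i =>
      X (some i) + C (algebraMap F Ω (x i)) : Option ι → MvPolynomial (Option ι) Ω) f

/-- **VH-DIR**: a direction in which the polynomial is monic up to a constant. -/
def S_DIR : Prop :=
  ∀ (K ι : Type) [Field K] [IsAlgClosed K] [Fintype ι] (f : MvPolynomial ι K), f ≠ 0 →
    ∃ (a : ι → K) (c : K), c ≠ 0 ∧ ∀ x : ι → K, ∃ Y : Fin f.totalDegree → K,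
      (aeval (fun i => Polynomial.C (x i) + Polynomial.C (a i) * Polynomial.X :
        ι → Polynomial K) f) = Polynomial.C c * ∏ v, (Polynomial.X - Polynomial.C (Y v))

/-- **VH-SUB**: back to the polynomial itself. -/
def S_SUB : Prop :=
  ∀ (K ι : Type) [Field K] [Fintype ι] (M : ℕ) (a : ι → K) (c : K) (f : MvPolynomial ι K), c ≠ 0 →
    (InClosure {g : Unit → MvPolynomial (Option ι) K | NSComp K (Option ι) Unit M g} fun _ =>
      C c⁻¹ * aeval (fun i => X (some i) + C (a i) * X none :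
        ι → MvPolynomial (Option ι) K) f) →
    InClosure {g : Unit → MvPolynomial ι K | NSComp K ι Unit M g} fun _ => f

end Pool.Agent.W966.Vg
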