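import Pool.Agent.W966.Vg.Main
import Pool.Agent.W966.Vg.Stms2

/-!
# From a system for all roots of a polynomial to approximative computations of the polynomial
-/

set_option autoImplicit false

namespace Pool.Agent.W966.Vg

open MvPolynomial Pool.Agent.W966.Vf

lemma shift_back' {K Ω ι : Type} [Field K] [Field Ω] [Algebra K Ω] (b : ι → Ω)
    (p : MvPolynomial (Option ι) K) :
    aeval (fun j => X j - C (Option.elim j 0 b) : Option ι → MvPolynomial (Option ι) Ω)
      (aeval (fun j => Option.elim j (X none) fun i => X (some i) + C (b i) :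
        Option ι → MvPolynomial (Option ι) Ω) p) =
        MvPolynomial.map (algebraMap K Ω) p := by
  have h := shift_back (fun j : Option ι => Option.elim j 0 b) p
  rw [← h]
  congr 3
  funext j
  rcases j with _ | i
  · simp
  · rfl

/-- `prodE` commutes with ring homomorphisms. -/
lemma map_prodE {P Q ι V : Type} [CommRing P] [CommRing Q] [Fintype V] (φ : P →+* Q) (d : ℕ)
    (Y : V × Fin (d + 1) → MvPolynomial ι P) :
    MvPolynomial.map φ (prodE d Y) = prodE d fun v => MvPolynomial.map φ (Y v) := by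
  unfold prodE
  rw [map_sum]
  refine Finset.sum_congr rfl fun k _ => ?_
  rw [← Polynomial.coeff_map, Polynomial.map_prod]
  congr 1
  refine Finset.prod_congr rfl fun v _ => ?_
  rw [Polynomial.map_sub, Polynomial.map_C, map_X, Polynomial.map_sum]
  congr 1
  refine Finset.sum_congr rfl fun k _ => ?_
  rw [Polynomial.map_mul, Polynomial.map_C, Polynomial.map_pow, Polynomial.map_X, map_rename]

/-- **From a computation over power series to the closure**, for a product over all roots. -/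
theorem finish2 (hBAS : S_BAS) (hSHIFT : S_SHIFT) (hCLOS : S_CLOS) (hPROD : S_PROD) {K Ω : Type}
    [Field K] [CharZero K] [Field Ω] [Algebra K Ω] {ι V : Type} [Fintype ι] [Fintype V]
    (M n d : ℕ) (f : MvPolynomial (Option ι) K) (b : ι → Ω)
    (G Fv : V × Fin (d + 1) → MvPolynomial ι (PowerSeries Ω))
    (hGc : NSComp (PowerSeries Ω) ι (V × Fin (d + 1)) M G)
    (hFG : ∀ v, G v = C (PowerSeries.X ^ n) * Fv v)
    (hred : prodE d (fun v => MvPolynomial.map PowerSeries.constantCoeff (Fv v)) =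
      aeval (fun j => Option.elim j (X none) fun i => X (some i) + C (b i) :
        Option ι → MvPolynomial (Option ι) Ω) f) :
    InClosure {g : Unit → MvPolynomial (Option ι) K | NSComp K (Option ι) Unit
      (M + Fintype.card V * ((d + 1) * (d + 2) / 2)) g} fun _ => f := by
  intro h hh
  obtain ⟨P, _, _, hinjP⟩ := exists_frac (PowerSeries Ω)
  have : Infinite K := CharZero.infinite K
  have hX : algebraMap (PowerSeries Ω) P (PowerSeries.X ^ n) ≠ 0 := by
    intro h1
    have := hinjP (h1.trans (map_zero (algebraMap (PowerSeries Ω) P)).symm)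
    exact pow_ne_zero _ PowerSeries.X_ne_zero this
  have h1 : NSComp P ι (V × Fin (d + 1)) M
      (fun v => MvPolynomial.map (algebraMap (PowerSeries Ω) P) (Fv v)) :=
    hBAS (PowerSeries Ω) P ι (V × Fin (d + 1)) M _ G Fv hGc hX hFG
  have h1' := hPROD P ι V M d _ h1
  rw [← map_prodE] at h1'
  have h2 := hSHIFT P (Option ι) Unit _ _ (fun j => algebraMap (PowerSeries Ω) P
    (PowerSeries.C (Option.elim j 0 b))) h1'
  let F' : Unit → MvPolynomial (Option ι) (PowerSeries Ω) := fun _ =>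
    aeval (fun j => X j - C (PowerSeries.C (Option.elim j 0 b)) :
      Option ι → MvPolynomial (Option ι) (PowerSeries Ω)) (prodE d Fv)
  have h3 : (fun _ : Unit => aeval (fun j => X j - C (algebraMap (PowerSeries Ω) P
      (PowerSeries.C (Option.elim j 0 b)))) (MvPolynomial.map (algebraMap (PowerSeries Ω) P)
        (prodE d Fv))) = fun v => MvPolynomial.map (algebraMap (PowerSeries Ω) P) (F' v) := by
    funext v
    exact shift_map (algebraMap (PowerSeries Ω) P)
      (fun j => PowerSeries.C (Option.elim j 0 b)) (prodE d Fv)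
  rw [h3] at h2
  have h5 : ∀ v, MvPolynomial.map PowerSeries.constantCoeff (F' v) =
      MvPolynomial.map (algebraMap K Ω) f := by
    intro v
    have h6 : MvPolynomial.map PowerSeries.constantCoeff (F' v) =
        aeval (fun j => X j - C (Option.elim j 0 b) : Option ι → MvPolynomial (Option ι) Ω)
          (MvPolynomial.map PowerSeries.constantCoeff (prodE d Fv)) := by
      have h4 := shift_map (PowerSeries.constantCoeff (R := Ω))
        (fun j => PowerSeries.C (Option.elim j 0 b)) (prodE d Fv)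
      simp only [PowerSeries.constantCoeff_C] at h4
      exact h4.symm
    rw [h6, map_prodE, hred]
    exact shift_back' b f
  let _ : Algebra K P := ((algebraMap (PowerSeries Ω) P).comp
    (algebraMap K (PowerSeries Ω))).toAlgebra
  have h7 : ∀ z : K, algebraMap K P z =
      algebraMap (PowerSeries Ω) P (algebraMap K (PowerSeries Ω) z) := fun _ => rfl
  have h8 := hCLOS K P (Option ι) Unit _ h (fun g hg => hh g hg)
    (fun v => MvPolynomial.map (algebraMap (PowerSeries Ω) P) (F' v)) h2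
  exact eval_reduce (Ω := Ω) (P := P) h7 hinjP h (fun _ => f) F' h5 h8

/-- The second half of the main theorem. -/
theorem mid_H (hCMP : S_CMP) (hBAS : S_BAS) (hSHIFT : S_SHIFT)
    (hCLOS : S_CLOS) (hPROD : S_PROD) (hID : S_ID) {K F Ω Ω' : Type} [Field K] [CharZero K]
    [Field F] [Algebra K F] [Field Ω] [Algebra F Ω] [Algebra K Ω] [IsScalarTower K F Ω]
    [Field Ω'] [Algebra Ω Ω'] [Algebra K Ω'] {ι N V : Type} [Fintype ι] [Fintype N]
    [Fintype V] {M d n : ℕ} (o : V → AF K N) (x : ι → F) (y : V → F) (κ : V → PowerSeries Ω)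
    (hκ : ∀ v, PowerSeries.constantCoeff (κ v) = algebraMap F Ω (y v))
    (f : MvPolynomial (Option ι) K) (hd : f.totalDegree ≤ d)
    (hf : (aeval (fun j => Option.elim j Polynomial.X fun i => Polynomial.C (x i) :
      Option ι → Polynomial F) f = ∏ v, (Polynomial.X - Polynomial.C (y v))))
    (u : ι → Ω') (W : ℕ → N → PowerSeries Ω') (τ : F →+* PowerSeries Ω')
    (hu : AlgebraicIndependent Ω u)
    (hKΩ' : ∀ z : K, algebraMap K Ω' z = algebraMap Ω Ω' (algebraMap K Ω z))
    (hτK : ∀ z : K, τ (algebraMap K F z) = PowerSeries.C (algebraMap K Ω' z))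
    (hτx : ∀ i, τ (x i) = PowerSeries.C (algebraMap Ω Ω' (algebraMap F Ω (x i))) +
        PowerSeries.C (u i) * PowerSeries.X)
    (hτ0 : ∀ z, PowerSeries.constantCoeff (τ z) = algebraMap Ω Ω' (algebraMap F Ω z))
    (hτ : ∀ v k, 1 ≤ k → PowerSeries.coeff k (τ (y v)) =
      PowerSeries.constantCoeff (lin (o v) (W k)))
    (G : V × Fin (d + 1) → MvPolynomial ι (PowerSeries Ω))
    (hG0 : ∀ v, MvPolynomial.eval₂ (PowerSeries.map (algebraMap Ω Ω'))
        (fun i => PowerSeries.C (u i)) (G (v, 0)) = PowerSeries.X ^ n *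
          PowerSeries.map (algebraMap Ω Ω') (κ v))
    (hG : ∀ v (k : Fin (d + 1)), k ≠ 0 →
      MvPolynomial.eval₂ (PowerSeries.map (algebraMap Ω Ω'))
        (fun i => PowerSeries.C (u i)) (G (v, k)) = PowerSeries.X ^ n * lin (o v) (W k))
    (hGc : NSComp (PowerSeries Ω) ι (V × Fin (d + 1)) M G) :
    InClosure {g : Unit → MvPolynomial (Option ι) K | NSComp K (Option ι) Unit
      (M + Fintype.card V * ((d + 1) * (d + 2) / 2)) g} fun _ => f := by
  have hF : ∀ v : V × Fin (d + 1), ∃ Fv : MvPolynomial ι (PowerSeries Ω),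
      G v = C (PowerSeries.X ^ n) * Fv ∧
      aeval u (MvPolynomial.map PowerSeries.constantCoeff Fv) =
        PowerSeries.coeff (v.2 : ℕ) (τ (y v.1)) := by
    intro v
    by_cases hk : v.2 = 0
    · have hv : v = (v.1, 0) := Prod.ext rfl hk
      obtain ⟨Fv, h1, h2⟩ := hCMP Ω Ω' ι u n (G (v.1, 0)) _ hu (hG0 v.1)
      refine ⟨Fv, ?_, ?_⟩
      · rw [← h1, ← hv]
      · rw [h2, const_map, hκ v.1, ← hτ0 (y v.1), hk,
          ← PowerSeries.coeff_zero_eq_constantCoeff_apply]
        rfl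
    · obtain ⟨Fv, h1, h2⟩ := hCMP Ω Ω' ι u n (G (v.1, v.2)) _ hu (hG v.1 v.2 hk)
      have hk1 : 1 ≤ (v.2 : ℕ) := Nat.one_le_iff_ne_zero.mpr fun h => hk (Fin.ext h)
      refine ⟨Fv, h1, ?_⟩
      rw [h2, hτ v.1 v.2 hk1]
  choose Fv hFG hFv using hF
  have h0 : ∀ v (k : Fin (d + 1)), aeval u (MvPolynomial.map PowerSeries.constantCoeff
      (Fv (v, k))) = PowerSeries.coeff (k : ℕ) (τ (y v)) := fun v k => hFv (v, k)
  have h1 := hID K F Ω Ω' ι V x u τ y d f
    (fun v => MvPolynomial.map PowerSeries.constantCoeff (Fv v)) hu hKΩ' hτK hτx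
  have h2 := h1 h0
  have h3 := h2 hd
  have h4 := h3 hf
  exact finish2 hBAS hSHIFT hCLOS hPROD M n d f
    (fun i => algebraMap F Ω (x i)) G Fv hGc hFG h4

/-- **The main theorem over a large field.** -/
theorem main_H (hTAY : S_TAY2) (hCMP : S_CMP) (hREC : S_REC2) (hBAS : S_BAS) (hSHIFT : S_SHIFT)
    (hCLOS : S_CLOS) (hPROD : S_PROD) (hID : S_ID) {K F : Type} [Field K] [CharZero K] [Field F]
    [IsAlgClosed F] [Algebra K F]
    {ι σ V : Type} [Fintype ι] [Fintype σ] [Fintype V] {L M d : ℕ} {J₂ J₃ : Type}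
    [Fintype J₂] [Fintype J₃] (α β δ : Fin L → AF K (ι ⊕ Fin 0 ⊕ σ))
    (lin : J₂ → AF K (ι ⊕ Fin 0 ⊕ σ)) (ne : J₃ → AF K (ι ⊕ Fin 0 ⊕ σ))
    (o : V → AF K (ι ⊕ Fin 0 ⊕ σ)) (x : ι → F) (hx : AlgebraicIndependent K x) (a : Fin 0 → F)
    (s₀ : σ → F) (h0 : Sat α β δ lin ne (pnt x a s₀)) (𝒞 : Fin M → V → F)
    (sound : ∀ s, Sat α β δ lin ne (pnt x a s) → ∃ i, ∀ v, (o v).val (pnt x a s) = 𝒞 i v)
    (y : V → F) (hy : ∀ v, (o v).val (pnt x a s₀) = y v)
    (f : MvPolynomial (Option ι) K) (hd : f.totalDegree ≤ d)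
    (hf : (aeval (fun j => Option.elim j Polynomial.X fun i => Polynomial.C (x i) :
      Option ι → Polynomial F) f = ∏ v, (Polynomial.X - Polynomial.C (y v)))) :
    InClosure {g : Unit → MvPolynomial (Option ι) K | NSComp K (Option ι) Unit
      (L * (d * (d - 1) / 2) + Fintype.card V * ((d + 1) * (d + 2) / 2)) g} fun _ => f := by
  obtain ⟨T, Ω₁, _, _, w₀, hT, hiso, hout⟩ := component α β δ lin ne o x a s₀ h0 𝒞 sound
  obtain ⟨Ω, _, _, _, _, w₁, γ, g, e, c, hAI, hg, heq, hval⟩ := solve (K := K) x a T w₀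
    (Sum.elim α fun _ => 0 : Fin L ⊕ J₂ → AF K (ι ⊕ Fin 0 ⊕ σ))
    (Sum.elim β fun _ => 0 : Fin L ⊕ J₂ → AF K (ι ⊕ Fin 0 ⊕ σ))
    (Sum.elim δ lin : Fin L ⊕ J₂ → AF K (ι ⊕ Fin 0 ⊕ σ)) hT hiso
  have hval' : ∀ v, PowerSeries.constantCoeff ((o v).val (pt x a T w₁ g)) =
      algebraMap F Ω (y v) := fun v => hval (o v) _ (by rw [hout, hy])
  obtain ⟨Ω', _, _, _, u, lam, mu, W, τ, hu, hKΩ', hW, hτK, hτx, hτ0, hτ⟩ :=
    hTAY K F Ω ι σ (Fin L ⊕ J₂) x a T w₁ g γ e _ _ _ c hx hAI hg heq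
  obtain ⟨G, hG0, hG, hGc⟩ := hREC K Ω Ω' ι (ι ⊕ Fin 0 ⊕ σ) V J₂ L d e _ _ lam mu u W o
    (fun v => (o v).val (pt x a T w₁ g)) hKΩ' (fun _ => rfl) hW
  exact mid_H hCMP hBAS hSHIFT hCLOS hPROD hID o x y (fun v => (o v).val (pt x a T w₁ g)) hval'
    f hd hf u W τ hu hKΩ' hτK hτx hτ0 (fun v k hk => hτ (o v) (y v) (hval' v) k hk) G hG0 hG hGc

end Pool.Agent.W966.Vg
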