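import Pool.Agent.W966.Vg.Defs
import Pool.Agent.W966.Vf.Stms2

/-!
# Nondeterministic verification of polynomial maps: statements of the parts
-/

set_option autoImplicit false

namespace Pool.Agent.W966.Vg

open MvPolynomial Pool.Agent.W966.Vf

/-- The linear part of an affine form. -/
noncomputable def lin {K N S : Type} [CommRing K] [CommRing S] [Algebra K S] [Fintype N]
    (f : AF K N) (w : N → S) : S :=
  ∑ s, algebraMap K S (f.2 s) * w s

/-- The recursion for the Taylor coefficients. `A = Ω⟦X⟧` has the coefficients `lam`, `mu`, and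
`W k s` lies in `Ω'⟦X⟧`. -/
def TayRec {K Ω Ω' ι N J : Type} [Field K] [Field Ω] [Field Ω'] [Algebra Ω Ω'] [Algebra K Ω']
    [Fintype ι] [Fintype N] [Fintype J] (α β : J → AF K N) (e : ℕ)
    (lam : N → J → PowerSeries Ω) (mu : N → ι → PowerSeries Ω) (u : ι → Ω')
    (W : ℕ → N → PowerSeries Ω') : Prop :=
  ∀ k, 1 ≤ k → ∀ s, PowerSeries.X ^ e * W k s =
    ∑ j, PowerSeries.map (algebraMap Ω Ω') (lam s j) *
      ∑ i ∈ Finset.Ioo 0 k, lin (α j) (W i) * lin (β j) (W (k - i)) +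
    if k = 1 then ∑ i, PowerSeries.map (algebraMap Ω Ω') (mu s i) * PowerSeries.C (u i) else 0

/-- **VG-TAY** -/
def S_TAY : Prop :=
  ∀ (K F Ω ι σ J : Type) [Field K] [CharZero K] [Field F] [Algebra K F] [Field Ω] [Algebra F Ω]
    [Algebra K Ω] [IsScalarTower K F Ω] [Fintype ι] [Fintype σ] [Fintype J]
    (x : ι → F) (a : Fin 0 → F) (T : Set σ) (w₀ : σ → Ω) (g : ↥(Tᶜ) → PowerSeries Ω)
    (γ : ↥(Tᶜ) → Ω) (e : ℕ) (α β δ : J → AF K (ι ⊕ Fin 0 ⊕ σ)) (c : ↥(Tᶜ) → J → K),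
    AlgebraicIndependent K x →
    AlgebraicIndependent F (Sum.elim (fun s : T => w₀ s) γ) →
    (∀ v, PowerSeries.constantCoeff (g v) = 0) →
    (∀ b, ∑ j, algebraMap K (PowerSeries Ω) (c b j) *
      ((α j).val (pt x a T w₀ g) * (β j).val (pt x a T w₀ g) - (δ j).val (pt x a T w₀ g)) =
        PowerSeries.C (γ b) * PowerSeries.X ^ e) →
    ∃ (Ω' : Type) (_ : Field Ω') (_ : Algebra Ω Ω') (_ : Algebra K Ω') (u : ι → Ω')
      (lam : (ι ⊕ Fin 0 ⊕ σ) → J → PowerSeries Ω) (mu : (ι ⊕ Fin 0 ⊕ σ) → ι → PowerSeries Ω)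
      (W : ℕ → (ι ⊕ Fin 0 ⊕ σ) → PowerSeries Ω'),
      AlgebraicIndependent Ω u ∧
      (∀ z : K, algebraMap K Ω' z = algebraMap Ω Ω' (algebraMap K Ω z)) ∧
      TayRec α β e lam mu u W ∧
      ∀ (o : AF K (ι ⊕ Fin 0 ⊕ σ)) (Φ : MvPolynomial ι K) (d : ℕ), Φ.totalDegree ≤ d →
        PowerSeries.constantCoeff (o.val (pt x a T w₀ g)) = algebraMap F Ω (aeval x Φ) →
        algebraMap Ω Ω' (algebraMap F Ω (aeval x Φ)) +
          ∑ k ∈ Finset.Icc 1 d, PowerSeries.constantCoeff (lin o (W k)) =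
        aeval (fun i => algebraMap Ω Ω' (algebraMap F Ω (x i)) + u i) Φ

/-- **VG-CMP**: comparison of coefficients. -/
def S_CMP : Prop :=
  ∀ (Ω Ω' ι : Type) [Field Ω] [Field Ω'] [Algebra Ω Ω'] [Fintype ι] (u : ι → Ω') (H : ℕ)
    (G : MvPolynomial ι (PowerSeries Ω)) (y : PowerSeries Ω'), AlgebraicIndependent Ω u →
    MvPolynomial.eval₂ (PowerSeries.map (algebraMap Ω Ω')) (fun i => PowerSeries.C (u i)) G =
      PowerSeries.X ^ H * y →
    ∃ F : MvPolynomial ι (PowerSeries Ω), G = C (PowerSeries.X ^ H) * F ∧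
      aeval u (MvPolynomial.map PowerSeries.constantCoeff F) = PowerSeries.constantCoeff y

/-- **VG-REC**: the recursion is a computation. -/
def S_REC : Prop :=
  ∀ (K Ω Ω' ι N V J₂ : Type) [Field K] [Field Ω] [Algebra K Ω] [Field Ω'] [Algebra Ω Ω']
    [Algebra K Ω'] [Fintype ι] [Fintype N] [Fintype V] [Fintype J₂] (L d e : ℕ)
    (α β : Fin L ⊕ J₂ → AF K N) (lam : N → Fin L ⊕ J₂ → PowerSeries Ω)
    (mu : N → ι → PowerSeries Ω) (u : ι → Ω') (W : ℕ → N → PowerSeries Ω')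
    (o : V → AF K N) (κ : V → PowerSeries Ω),
    (∀ z : K, algebraMap K Ω' z = algebraMap Ω Ω' (algebraMap K Ω z)) →
    (∀ j, α (Sum.inr j) = 0) → TayRec α β e lam mu u W →
    ∃ G : V → MvPolynomial ι (PowerSeries Ω),
      (∀ v, MvPolynomial.eval₂ (PowerSeries.map (algebraMap Ω Ω'))
        (fun i => PowerSeries.C (u i)) (G v) = PowerSeries.X ^ (2 * d * e) *
          (PowerSeries.map (algebraMap Ω Ω') (κ v) + ∑ k ∈ Finset.Icc 1 d, lin (o v) (W k))) ∧
      NSComp (PowerSeries Ω) ι V (L * (d * (d - 1) / 2)) G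

/-- **VG-BAS**: base change and scaling of computations. -/
def S_BAS : Prop :=
  ∀ (R P ι V : Type) [CommRing R] [Field P] [Algebra R P] [Fintype ι] (M : ℕ) (z : R)
    (G F : V → MvPolynomial ι R), NSComp R ι V M G → algebraMap R P z ≠ 0 →
    (∀ v, G v = C z * F v) →
    NSComp P ι V M fun v => MvPolynomial.map (algebraMap R P) (F v)

/-- **VG-SHIFT** -/
def S_SHIFT : Prop :=
  ∀ (P ι V : Type) [CommRing P] [Fintype ι] (M : ℕ) (F : V → MvPolynomial ι P) (a : ι → P),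
    NSComp P ι V M F → NSComp P ι V M fun v => aeval (fun i => X i - C (a i)) (F v)

/-- **VG-CLOS** -/
def S_CLOS : Prop :=
  ∀ (K P ι V : Type) [Field K] [Infinite K] [Field P] [Algebra K P] [Fintype ι] [Fintype V]
    (M : ℕ) (h : MvPolynomial (V × (ι →₀ ℕ)) K),
    (∀ f, NSComp K ι V M f → eval (fun p => coeff p.2 (f p.1)) h = 0) →
    ∀ f, NSComp P ι V M f → aeval (fun p => coeff p.2 (f p.1)) h = 0

/-- **VG-TOT** -/
def S_TOT : Prop :=
  ∀ (K ι V : Type) [Field K] [Fintype ι] [Fintype V] (M : ℕ) (f : V → MvPolynomial ι K),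
    NSComp K ι V M f →
      SLComp K ι V ((M + Fintype.card V) * (4 * (Fintype.card ι + M) + 1)) f

end Pool.Agent.W966.Vg
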