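import Pool.Agent.W966.Vg.Solve
import Pool.Agent.W966.Vg.Stms

/-!
# From a verification system to approximative computations
-/

set_option autoImplicit false

namespace Pool.Agent.W966.Vg

open MvPolynomial Pool.Agent.W966.Vf

/-- Reduction of the closure statement modulo `X`. -/
lemma eval_reduce {K Ω P ι V : Type} [Field K] [Field Ω] [Field P] [Algebra K Ω]
    [Algebra (PowerSeries Ω) P] [Algebra K P]
    (hKP : ∀ z : K, algebraMap K P z = algebraMap (PowerSeries Ω) P (algebraMap K _ z))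
    (hinj : Function.Injective (algebraMap (PowerSeries Ω) P))
    (h : MvPolynomial (V × (ι →₀ ℕ)) K) (f : V → MvPolynomial ι K)
    (F : V → MvPolynomial ι (PowerSeries Ω))
    (hF : ∀ v, MvPolynomial.map PowerSeries.constantCoeff (F v) =
      MvPolynomial.map (algebraMap K Ω) (f v))
    (h0 : aeval (fun p : V × (ι →₀ ℕ) =>
      coeff p.2 (MvPolynomial.map (algebraMap (PowerSeries Ω) P) (F p.1))) h = 0) :
    eval (fun p => coeff p.2 (f p.1)) h = 0 := by
  have h1 : aeval (fun p : V × (ι →₀ ℕ) => coeff p.2 (F p.1)) h = 0 := by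
    apply hinj
    rw [map_zero, ← h0]
    simp only [coeff_map]
    have e1 : (algebraMap K P) = (algebraMap (PowerSeries Ω) P).comp (algebraMap K _) :=
      RingHom.ext hKP
    rw [aeval_def, aeval_def, e1]
    exact MvPolynomial.eval₂_comp_left (algebraMap (PowerSeries Ω) P) (algebraMap K _) _ h
  have h2 := congrArg (PowerSeries.constantCoeff (R := Ω)) h1
  rw [map_zero, aeval_def, MvPolynomial.eval₂_comp_left] at h2
  have e2 : (PowerSeries.constantCoeff (R := Ω)).comp (algebraMap K (PowerSeries Ω)) =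
      algebraMap K Ω := by
    refine RingHom.ext fun c => ?_
    rw [RingHom.comp_apply, PowerSeries.algebraMap_apply, PowerSeries.constantCoeff_C]
  have e3 : ((PowerSeries.constantCoeff (R := Ω)) ∘ fun p : V × (ι →₀ ℕ) =>
      coeff p.2 (F p.1)) = fun p => algebraMap K Ω (coeff p.2 (f p.1)) := by
    funext p
    have := congrArg (coeff p.2) (hF p.1)
    rw [coeff_map, coeff_map] at this
    exact this
  rw [e2, e3] at h2
  apply (algebraMap K Ω).injective
  rw [map_zero, ← h2]
  exact (MvPolynomial.eval₂_comp_left (algebraMap K Ω) (RingHom.id K) _ h)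

lemma shift_u {K Ω Ω' ι : Type} [Field K] [Field Ω] [Field Ω'] [Algebra K Ω] [Algebra Ω Ω']
    [Algebra K Ω'] (hK : ∀ z : K, algebraMap K Ω' z = algebraMap Ω Ω' (algebraMap K Ω z))
    (b : ι → Ω) (u : ι → Ω') (p : MvPolynomial ι K) :
    aeval (fun i => algebraMap Ω Ω' (b i) + u i) p =
      aeval u (aeval (fun i => X i + C (b i) : ι → MvPolynomial ι Ω) p) := by
  induction p using MvPolynomial.induction_on with
  | C c =>
    have : (algebraMap K (MvPolynomial ι Ω)) c = C (algebraMap K Ω c) := rfl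
    rw [aeval_C, aeval_C, hK, this, aeval_C]
  | add p q hp hq => rw [map_add, map_add, map_add, hp, hq]
  | mul_X p i hp =>
    rw [map_mul, map_mul, map_mul, hp, aeval_X, aeval_X, map_add, aeval_X, aeval_C, add_comm (u i)]

lemma shift_map {R S ι : Type} [CommRing R] [CommRing S] (φ : R →+* S) (a : ι → R)
    (F : MvPolynomial ι R) :
    aeval (fun i => X i - C (φ (a i)) : ι → MvPolynomial ι S) (MvPolynomial.map φ F) =
      MvPolynomial.map φ (aeval (fun i => X i - C (a i) : ι → MvPolynomial ι R) F) := by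
  induction F using MvPolynomial.induction_on with
  | C c => rw [map_C, aeval_C, aeval_C, algebraMap_eq, algebraMap_eq, map_C]
  | add p q hp hq => rw [map_add, map_add, map_add, map_add, hp, hq]
  | mul_X p i hp =>
    rw [map_mul, map_mul, map_mul, map_mul, hp, map_X, aeval_X, aeval_X, map_sub, map_X, map_C]

lemma shift_back {K Ω ι : Type} [Field K] [Field Ω] [Algebra K Ω] (b : ι → Ω)
    (p : MvPolynomial ι K) :
    aeval (fun i => X i - C (b i) : ι → MvPolynomial ι Ω)
      (aeval (fun i => X i + C (b i) : ι → MvPolynomial ι Ω) p) =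
        MvPolynomial.map (algebraMap K Ω) p := by
  induction p using MvPolynomial.induction_on with
  | C c =>
    have : (algebraMap K (MvPolynomial ι Ω)) c = C (algebraMap K Ω c) := rfl
    rw [aeval_C, this, aeval_C, algebraMap_eq, map_C]
  | add p q hp hq => rw [map_add, map_add, map_add, hp, hq]
  | mul_X p i hp =>
    rw [map_mul, map_mul, map_mul, hp, aeval_X, map_add, aeval_X, aeval_C, algebraMap_eq, map_X,
      sub_add_cancel]

lemma exists_frac (A : Type) [CommRing A] [IsDomain A] : ∃ (P : Type) (_ : Field P)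
    (_ : Algebra A P), Function.Injective (algebraMap A P) :=
  ⟨FractionRing A, inferInstance, inferInstance, IsFractionRing.injective _ _⟩

lemma const_map {Ω Ω' : Type} [Field Ω] [Field Ω'] (φ : Ω →+* Ω') (f : PowerSeries Ω) :
    PowerSeries.constantCoeff (PowerSeries.map φ f) = φ (PowerSeries.constantCoeff f) := by
  rw [← PowerSeries.coeff_zero_eq_constantCoeff_apply, PowerSeries.coeff_map,
    PowerSeries.coeff_zero_eq_constantCoeff_apply]

/-- **From a computation over power series to the closure.** -/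
theorem finish (hBAS : S_BAS) (hSHIFT : S_SHIFT) (hCLOS : S_CLOS) {K Ω : Type} [Field K]
    [CharZero K] [Field Ω] [Algebra K Ω] {ι V : Type} [Fintype ι] [Fintype V] (M n : ℕ)
    (f : V → MvPolynomial ι K) (b : ι → Ω) (G Fv : V → MvPolynomial ι (PowerSeries Ω))
    (hGc : NSComp (PowerSeries Ω) ι V M G) (hFG : ∀ v, G v = C (PowerSeries.X ^ n) * Fv v)
    (hred : ∀ v, MvPolynomial.map PowerSeries.constantCoeff (Fv v) =
      aeval (fun i => X i + C (b i) : ι → MvPolynomial ι Ω) (f v)) :
    InClosure {g | NSComp K ι V M g} f := by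
  intro h hh
  obtain ⟨P, _, _, hinjP⟩ := exists_frac (PowerSeries Ω)
  have : Infinite K := CharZero.infinite K
  have hX : algebraMap (PowerSeries Ω) P (PowerSeries.X ^ n) ≠ 0 := by
    intro h1
    have := hinjP (h1.trans (map_zero (algebraMap (PowerSeries Ω) P)).symm)
    exact pow_ne_zero _ PowerSeries.X_ne_zero this
  have h1 : NSComp P ι V M
      (fun v => MvPolynomial.map (algebraMap (PowerSeries Ω) P) (Fv v)) :=
    hBAS (PowerSeries Ω) P ι V M _ G Fv hGc hX hFG
  have h2 := hSHIFT P ι V M _ (fun i => algebraMap (PowerSeries Ω) P (PowerSeries.C (b i))) h1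
  let F' : V → MvPolynomial ι (PowerSeries Ω) := fun v =>
    aeval (fun i => X i - C (PowerSeries.C (b i)) : ι → MvPolynomial ι (PowerSeries Ω)) (Fv v)
  have h3 : (fun v => aeval (fun i => X i - C (algebraMap (PowerSeries Ω) P
      (PowerSeries.C (b i)))) (MvPolynomial.map (algebraMap (PowerSeries Ω) P)
        (Fv v))) = fun v => MvPolynomial.map (algebraMap (PowerSeries Ω) P) (F' v) := by
    funext v
    exact shift_map (algebraMap (PowerSeries Ω) P) (fun i => PowerSeries.C (b i)) (Fv v)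
  rw [h3] at h2
  have h5 : ∀ v, MvPolynomial.map PowerSeries.constantCoeff (F' v) =
      MvPolynomial.map (algebraMap K Ω) (f v) := by
    intro v
    have h6 : MvPolynomial.map PowerSeries.constantCoeff (F' v) =
        aeval (fun i => X i - C (b i) : ι → MvPolynomial ι Ω)
          (MvPolynomial.map PowerSeries.constantCoeff (Fv v)) := by
      have h4 := shift_map (PowerSeries.constantCoeff (R := Ω))
        (fun i => PowerSeries.C (b i)) (Fv v)
      simp only [PowerSeries.constantCoeff_C] at h4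
      exact h4.symm
    rw [h6, hred v]
    exact shift_back b (f v)
  let _ : Algebra K P := ((algebraMap (PowerSeries Ω) P).comp
    (algebraMap K (PowerSeries Ω))).toAlgebra
  have h7 : ∀ z : K, algebraMap K P z =
      algebraMap (PowerSeries Ω) P (algebraMap K (PowerSeries Ω) z) := fun _ => rfl
  have h8 := hCLOS K P ι V M h (fun g hg => hh g hg)
    (fun v => MvPolynomial.map (algebraMap (PowerSeries Ω) P) (F' v)) h2
  exact eval_reduce (Ω := Ω) (P := P) h7 hinjP h f F' h5 h8

/-- **The main theorem over a large field.** -/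
theorem main_G (hTAY : S_TAY) (hCMP : S_CMP) (hREC : S_REC) (hBAS : S_BAS) (hSHIFT : S_SHIFT)
    (hCLOS : S_CLOS) {K F : Type} [Field K] [CharZero K] [Field F] [IsAlgClosed F] [Algebra K F]
    {ι σ V : Type} [Fintype ι] [Fintype σ] [Fintype V] {L M d : ℕ} {J₂ J₃ : Type}
    [Fintype J₂] [Fintype J₃] (α β δ : Fin L → AF K (ι ⊕ Fin 0 ⊕ σ))
    (lin : J₂ → AF K (ι ⊕ Fin 0 ⊕ σ)) (ne : J₃ → AF K (ι ⊕ Fin 0 ⊕ σ))
    (o : V → AF K (ι ⊕ Fin 0 ⊕ σ)) (x : ι → F) (hx : AlgebraicIndependent K x) (a : Fin 0 → F)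
    (s₀ : σ → F) (h0 : Sat α β δ lin ne (pnt x a s₀)) (𝒞 : Fin M → V → F)
    (sound : ∀ s, Sat α β δ lin ne (pnt x a s) → ∃ i, ∀ v, (o v).val (pnt x a s) = 𝒞 i v)
    (f : V → MvPolynomial ι K) (hd : ∀ v, (f v).totalDegree ≤ d)
    (hf : ∀ v, (o v).val (pnt x a s₀) = aeval x (f v)) :
    InClosure {g | NSComp K ι V (L * (d * (d - 1) / 2)) g} f := by
  classical
  obtain ⟨T, Ω₁, _, _, w₀, hT, hiso, hout⟩ := component α β δ lin ne o x a s₀ h0 𝒞 sound
  obtain ⟨Ω, _, _, _, _, w₁, γ, g, e, c, hAI, hg, heq, hval⟩ := solve (K := K) x a T w₀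
    (Sum.elim α fun _ => 0 : Fin L ⊕ J₂ → AF K (ι ⊕ Fin 0 ⊕ σ))
    (Sum.elim β fun _ => 0 : Fin L ⊕ J₂ → AF K (ι ⊕ Fin 0 ⊕ σ))
    (Sum.elim δ lin : Fin L ⊕ J₂ → AF K (ι ⊕ Fin 0 ⊕ σ)) hT hiso
  have hval' : ∀ v, PowerSeries.constantCoeff ((o v).val (pt x a T w₁ g)) =
      algebraMap F Ω (aeval x (f v)) := fun v => hval (o v) _ (by rw [hout, hf])
  obtain ⟨Ω', _, _, _, u, lam, mu, W, hu, hKΩ', hW, hTay⟩ := hTAY K F Ω ι σ (Fin L ⊕ J₂) x a T
    w₁ g γ e _ _ _ c hx hAI hg heq
  obtain ⟨G, hG, hGc⟩ := hREC K Ω Ω' ι (ι ⊕ Fin 0 ⊕ σ) V J₂ L d e _ _ lam mu u W o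
    (fun v => (o v).val (pt x a T w₁ g)) hKΩ' (fun _ => rfl) hW
  have hF := fun v => hCMP Ω Ω' ι u (2 * d * e) (G v) _ hu (hG v)
  choose Fv hFG hFv using hF
  have hred : ∀ v, MvPolynomial.map PowerSeries.constantCoeff (Fv v) =
      aeval (fun i => X i + C (algebraMap F Ω (x i)) : ι → MvPolynomial ι Ω) (f v) := by
    intro v
    apply hu
    rw [hFv v, map_add, map_sum, const_map, hval' v, hTay (o v) (f v) d (hd v) (hval' v)]
    exact shift_u hKΩ' (fun i => algebraMap F Ω (x i)) u (f v)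
  exact finish hBAS hSHIFT hCLOS (L * (d * (d - 1) / 2)) (2 * d * e) f
    (fun i => algebraMap F Ω (x i)) G Fv hGc hFG hred

end Pool.Agent.W966.Vg
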