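import Pool.Agent.W966.Vf.Gen
import Pool.Agent.W966.Vg.Main

/-!
# Nondeterministic verification of polynomial maps: the general theorem
-/

set_option autoImplicit false

namespace Pool.Agent.W966.Vg

open MvPolynomial Filter Pool.Agent.W966.Vf

/-- A linear combination as an affine form. -/
def toAF {K ι V : Type} [Zero K] (N' : ℕ) (f : LF K (ι ⊕ V)) : AF K (ι ⊕ Fin 0 ⊕ (V ⊕ Fin N')) :=
  (f.c, Sum.elim (fun i => f.x (Sum.inl i))
    (Sum.elim (fun _ => 0) (Sum.elim (fun v => f.x (Sum.inr v)) (fun s => f.r s))))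

lemma toAF_val {K ι V : Type} [Field K] [Fintype ι] [Fintype V] (N' : ℕ) (f : LF K (ι ⊕ V))
    (x : ι → K) (a : Fin 0 → K) (y : V → K) (g : ℕ → K) :
    (toAF N' f).val (pnt x a (Sum.elim y (fun s : Fin N' => g s))) =
      f.val (Sum.elim x y) N' g := by
  unfold AF.val toAF LF.val pnt
  simp only [Algebra.algebraMap_self, RingHom.id_apply, Fintype.sum_sum_type, Sum.elim_inl,
    Sum.elim_inr, Finset.univ_eq_empty, Finset.sum_empty, zero_add]
  rw [Finset.sum_range]
  ring

open Classical in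
/-- The coordinates `y v`. -/
noncomputable def outAF {K ι V : Type} [Field K] (N' : ℕ) (v : V) :
    AF K (ι ⊕ Fin 0 ⊕ (V ⊕ Fin N')) :=
  (0, Pi.single (Sum.inr (Sum.inr (Sum.inl v))) 1)

lemma outAF_val {K F ι V : Type} [Field K] [Field F] [Algebra K F] [Fintype ι] [Fintype V]
    (N' : ℕ) (v : V) (w : ι ⊕ Fin 0 ⊕ (V ⊕ Fin N') → F) :
    (outAF N' v : AF K (ι ⊕ Fin 0 ⊕ (V ⊕ Fin N'))).val w = w (Sum.inr (Sum.inr (Sum.inl v))) := by
  classical
  unfold AF.val outAF
  rw [map_zero, zero_add, Finset.sum_eq_single (Sum.inr (Sum.inr (Sum.inl v)))]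
  · simp
  · intro b _ hb
    show algebraMap K F ((Pi.single (Sum.inr (Sum.inr (Sum.inl v))) 1 :
      ι ⊕ Fin 0 ⊕ (V ⊕ Fin N') → K) b) * w b = 0
    rw [Pi.single_eq_of_ne hb, map_zero, zero_mul]
  · intro h
    exact absurd (Finset.mem_univ _) h

section

variable {K : Type} [Field K] {I : Type} {𝒰 : Ultrafilter I}

lemma cu_aeval {ι : Type} (y : I → ι → K) (p : MvPolynomial ι K) :
    aeval (fun i => cu 𝒰 (fun S => y S i)) p = cu 𝒰 (fun S => eval (y S) p) := by
  induction p using MvPolynomial.induction_on with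
  | C c => simp only [aeval_C, eval_C]; rfl
  | add p q hp hq =>
    simp only [map_add, hp, hq]
    rw [← map_add]
    rfl
  | mul_X p i hp =>
    simp only [map_mul, hp, aeval_X, eval_X]
    rw [← map_mul]
    rfl

end

lemma LF.val_congr' {R K ι : Type} [CommRing K] [CommRing R] [Algebra K R] [Fintype ι]
    (f : LF K ι) (x : ι → R) {l : ℕ} {g g' : ℕ → R} (h : ∀ s < l, g s = g' s) :
    f.val x l g = f.val x l g' := by
  unfold LF.val
  congr 1
  exact Finset.sum_congr rfl fun s hs => by rw [h s (Finset.mem_range.mp hs)]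

/-- More multiplications are allowed. -/
lemma NSComp.mono {R ι V : Type} [CommRing R] [Fintype ι] {M₁ M₂ : ℕ} (hM : M₁ ≤ M₂)
    {f : V → MvPolynomial ι R} (h : NSComp R ι V M₁ f) : NSComp R ι V M₂ f := by
  obtain ⟨a, b, o, g, h1, h2⟩ := h
  refine ⟨fun r => if r < M₁ then a r else ⟨0, 0, 0⟩, b,
    fun v => ⟨(o v).c, (o v).x, fun s => if s < M₁ then (o v).r s else 0⟩,
    fun r => if r < M₁ then g r else 0, ?_, ?_⟩
  · intro r _
    by_cases hr : r < M₁
    · simp only [if_pos hr]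
      rw [h1 r hr, (a r).val_congr' X (l := r) (g := g) (g' := fun r => if r < M₁ then g r else 0)
        (fun s hs => (if_pos (hs.trans hr)).symm),
        (b r).val_congr' X (l := r) (g := g) (g' := fun r => if r < M₁ then g r else 0)
        (fun s hs => (if_pos (hs.trans hr)).symm)]
    · simp only [if_neg hr]
      simp [LF.val]
  · intro v
    rw [h2 v]
    unfold LF.val
    congr 1
    simp only []
    rw [← Finset.sum_subset (Finset.range_subset_range.mpr hM)]
    · refine Finset.sum_congr rfl fun s hs => ?_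
      rw [if_pos (Finset.mem_range.mp hs), if_pos (Finset.mem_range.mp hs)]
    · intro s _ hs
      rw [if_neg (fun h => hs (Finset.mem_range.mpr h)), map_zero, zero_mul]

/-- **The general theorem.** -/
theorem gen (hTAY : S_TAY) (hCMP : S_CMP) (hREC : S_REC) (hBAS : S_BAS) (hSHIFT : S_SHIFT)
    (hCLOS : S_CLOS) {K ι V : Type} [Field K] [IsAlgClosed K] [CharZero K] [Fintype ι] [Fintype V]
    {L M d : ℕ} (t : NTree K (ι ⊕ V)) (f : V → MvPolynomial ι K)
    (hd : ∀ v, (f v).totalDegree ≤ d)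
    (H : ∀ p : MvPolynomial ι K, p ≠ 0 → ∃ x : ι → K, eval x p ≠ 0 ∧
      t.Accepts (Sum.elim x fun v => eval x (f v)) L ∧
      ∃ 𝒞 : Fin M → V → K, ∀ y : V → K, t.Accepts (Sum.elim x y) L → ∃ i, y = 𝒞 i) :
    InClosure {g | NSComp K ι V (L * (d * (d - 1) / 2)) g} f := by
  classical
  obtain ⟨I, 𝒰, x, hx, hindep⟩ := exists_generic_dense (K := K) (κ := ι)
    (fun x => t.Accepts (Sum.elim x fun v => eval x (f v)) L ∧
      ∃ 𝒞 : Fin M → V → K, ∀ y : V → K, t.Accepts (Sum.elim x y) L → ∃ i, y = 𝒞 i) H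
  choose hacc 𝒞 h𝒞 using hx
  have hpath : ∀ S, ∃ p ∈ paths t, p.muls ≤ L ∧ ∃ g' : ℕ → K,
      p.Ok (Sum.elim (x S) fun v => eval (x S) (f v)) g' 0 := by
    intro S
    obtain ⟨p, hp, hm, g', -, hok⟩ := path_of_acc _ t 0 0 L (hacc S)
    exact ⟨p, hp, hm, g', hok⟩
  obtain ⟨p, hp, hpS⟩ := ultra_const (𝒰 := 𝒰) (paths t) (paths_finite t)
    (fun S p => p.muls ≤ L ∧ ∃ g' : ℕ → K,
      p.Ok (Sum.elim (x S) fun v => eval (x S) (f v)) g' 0) (Eventually.of_forall hpath)
  have hmuls : p.muls ≤ L := by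
    obtain ⟨S, hS⟩ := hpS.exists
    exact hS.1
  have hg : ∀ S, ∃ g' : ℕ → K, (p.muls ≤ L ∧ ∃ g' : ℕ → K,
      p.Ok (Sum.elim (x S) fun v => eval (x S) (f v)) g' 0) →
        p.Ok (Sum.elim (x S) fun v => eval (x S) (f v)) g' 0 := by
    intro S
    by_cases h : ∃ g' : ℕ → K, p.Ok (Sum.elim (x S) fun v => eval (x S) (f v)) g' 0
    · obtain ⟨g', hg'⟩ := h
      exact ⟨g', fun _ => hg'⟩
    · exact ⟨0, fun h' => absurd h'.2 h⟩
  choose g hg using hg
  have hgS : ∀ᶠ S in (𝒰 : Filter I),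
      p.Ok (Sum.elim (x S) fun v => eval (x S) (f v)) (g S) 0 := hpS.mono fun S hS => hg S hS
  obtain ⟨N', hN'⟩ : ∃ N', p.fin 0 = N' := ⟨_, rfl⟩
  let xF : ι → UP K 𝒰 := fun e => cu 𝒰 (fun S => x S e)
  let aF : Fin 0 → UP K 𝒰 := fun t => t.elim0
  have hval : ∀ (yy : I → V → K) (gg : I → ℕ → K) (f : LF K (ι ⊕ V)),
      (toAF N' f).val (pnt xF aF (Sum.elim (fun v => cu 𝒰 (fun S => yy S v))
        (fun s : Fin N' => cu 𝒰 (fun S => gg S s)))) =
        cu 𝒰 (fun S => f.val (Sum.elim (x S) (yy S)) N' (gg S)) := by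
    intro yy gg f
    have e2 : pnt xF aF (Sum.elim (fun v => cu 𝒰 (fun S => yy S v))
        (fun s : Fin N' => cu 𝒰 (fun S => gg S s))) =
        fun i => cu 𝒰 (fun S => pnt (x S) (fun t : Fin 0 => (t.elim0 : K))
          (Sum.elim (yy S) (fun s : Fin N' => gg S s)) i) := by
      funext i
      rcases i with i | i | i | i
      · rfl
      · exact i.elim0
      · rfl
      · rfl
    rw [e2, los_val (𝒰 := 𝒰) (toAF N' f)
      (fun i S => pnt (x S) (fun t : Fin 0 => (t.elim0 : K))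
          (Sum.elim (yy S) (fun s : Fin N' => gg S s)) i)]
    congr 1
    funext S
    exact toAF_val N' f (x S) _ (yy S) (gg S)
  let α : Fin (p.msys 0).length → AF K (ι ⊕ Fin 0 ⊕ (V ⊕ Fin N')) :=
    fun j => toAF N' ((p.msys 0).get j).1
  let β : Fin (p.msys 0).length → AF K (ι ⊕ Fin 0 ⊕ (V ⊕ Fin N')) :=
    fun j => toAF N' ((p.msys 0).get j).2.1
  let δ : Fin (p.msys 0).length → AF K (ι ⊕ Fin 0 ⊕ (V ⊕ Fin N')) :=
    fun j => toAF N' ((p.msys 0).get j).2.2
  let lin : Fin (p.lsys 0).length → AF K (ι ⊕ Fin 0 ⊕ (V ⊕ Fin N')) :=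
    fun j => toAF N' ((p.lsys 0).get j)
  let ne : Fin (p.nsys 0).length → AF K (ι ⊕ Fin 0 ⊕ (V ⊕ Fin N')) :=
    fun j => toAF N' ((p.nsys 0).get j)
  have hlist : ∀ {α : Type} (l : List α) (P : α → Prop),
      (∀ x ∈ l, P x) ↔ ∀ j : Fin l.length, P (l.get j) := by
    intro α l P
    refine ⟨fun h j => h _ (List.get_mem l j), fun h x hx => ?_⟩
    obtain ⟨j, hj⟩ := List.get_of_mem hx
    rw [← hj]
    exact h j
  have hsat : ∀ (yy : I → V → K) (gg : I → ℕ → K),
      (Sat α β δ lin ne (pnt xF aF (Sum.elim (fun v => cu 𝒰 (fun S => yy S v))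
        (fun s : Fin N' => cu 𝒰 (fun S => gg S s)))) ↔
        ∀ᶠ S in (𝒰 : Filter I), p.Ok (Sum.elim (x S) (yy S)) (gg S) 0) := by
    intro yy gg
    have e1 : ∀ S, p.Ok (Sum.elim (x S) (yy S)) (gg S) 0 ↔
        (∀ j : Fin (p.msys 0).length,
          ((p.msys 0).get j).1.val (Sum.elim (x S) (yy S)) N' (gg S) *
          ((p.msys 0).get j).2.1.val (Sum.elim (x S) (yy S)) N' (gg S) =
          ((p.msys 0).get j).2.2.val (Sum.elim (x S) (yy S)) N' (gg S)) ∧
        (∀ j : Fin (p.lsys 0).length,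
          ((p.lsys 0).get j).val (Sum.elim (x S) (yy S)) N' (gg S) = 0) ∧
        (∀ j : Fin (p.nsys 0).length,
          ((p.nsys 0).get j).val (Sum.elim (x S) (yy S)) N' (gg S) ≠ 0) := by
      intro S
      rw [Path.ok_iff (Sum.elim (x S) (yy S)) (gg S) p 0 N' hN'.le, hlist, hlist, hlist]
    simp only [e1, Filter.eventually_and, Filter.eventually_all]
    constructor
    · intro h
      refine ⟨fun j => ?_, fun j => ?_, fun j => ?_⟩
      · have := h.mul j
        simp only [α, β, δ, hval yy gg, ← map_mul] at this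
        exact cu_eq.mp this
      · have := h.lin j
        simp only [lin, hval yy gg] at this
        exact cu_eq_zero.mp this
      · have := h.ne j
        simp only [ne, hval yy gg] at this
        exact cu_ne_zero.mp this
    · rintro ⟨h1, h2, h3⟩
      refine ⟨fun j => ?_, fun j => ?_, fun j => ?_⟩
      · simp only [α, β, δ, hval yy gg, ← map_mul]
        exact cu_eq.mpr (h1 j)
      · simp only [lin, hval yy gg]
        exact cu_eq_zero.mpr (h2 j)
      · simp only [ne, hval yy gg]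
        exact cu_ne_zero.mpr (h3 j)
  let 𝒞F : Fin M → V → UP K 𝒰 := fun i v => cu 𝒰 (fun S => 𝒞 S i v)
  have key := main_G (K := K) (F := UP K 𝒰) (M := M) (d := d) hTAY hCMP hREC hBAS hSHIFT hCLOS
    α β δ lin ne (fun v => outAF N' v) xF hindep aF
    (Sum.elim (fun v => cu 𝒰 (fun S => eval (x S) (f v)))
      (fun s : Fin N' => cu 𝒰 (fun S => g S s)))
    ((hsat (fun S v => eval (x S) (f v)) g).mpr hgS) 𝒞F
    (by
      intro s hs
      choose r hr using cu_surj (K := K) (𝒰 := 𝒰)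
      let yy : I → V → K := fun S v => r (s (Sum.inl v)) S
      let gg : I → ℕ → K := fun S t => if h : t < N' then r (s (Sum.inr ⟨t, h⟩)) S else 0
      have hgg' : ∀ S, ∀ t : Fin N', gg S t = r (s (Sum.inr t)) S := by
        intro S t
        simp only [gg, dif_pos t.2]
      have hs' : s = Sum.elim (fun v => cu 𝒰 (fun S => yy S v))
          (fun t : Fin N' => cu 𝒰 (fun S => gg S t)) := by
        funext t
        rcases t with v | t
        · exact (hr (s (Sum.inl v))).symm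
        · simp only [Sum.elim_inr, hgg']
          exact (hr (s (Sum.inr t))).symm
      rw [hs'] at hs
      have h1 := (hsat yy gg).mp hs
      have h2 : ∀ᶠ S in (𝒰 : Filter I), ∃ i ∈ (Set.univ : Set (Fin M)), yy S = 𝒞 S i := by
        filter_upwards [h1] with S hS
        have h3 : t.Accepts (Sum.elim (x S) (yy S)) L :=
          acc_of_path _ t 0 0 L p hp hmuls (gg S) (fun s hs => absurd hs (Nat.not_lt_zero s)) hS
        obtain ⟨i, hi⟩ := h𝒞 S _ h3
        exact ⟨i, Set.mem_univ _, hi⟩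
      obtain ⟨i, -, hi⟩ := ultra_const (𝒰 := 𝒰) Set.univ Set.finite_univ _ h2
      refine ⟨i, fun v => ?_⟩
      rw [outAF_val, hs']
      show cu 𝒰 (fun S => yy S v) = cu 𝒰 (fun S => 𝒞 S i v)
      refine cu_eq.mpr ?_
      filter_upwards [hi] with S hS
      rw [hS])
    f hd
    (by
      intro v
      rw [outAF_val]
      exact (cu_aeval x (f v)).symm)
  intro h hh
  refine key h fun g hg => hh g ?_
  refine NSComp.mono ?_ hg
  rw [p.msys_length]
  exact Nat.mul_le_mul_right _ hmuls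

end Pool.Agent.W966.Vg
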