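import Pool.Agent.W966.Vg.Gen
import Pool.Agent.W966.Vg.Fin2

/-!
# Nondeterministic decision of hypersurfaces: the general theorem
-/

set_option autoImplicit false

namespace Pool.Agent.W966.Vg

open MvPolynomial Filter Pool.Agent.W966.Vf

/-- The restriction to a line has degree at most the degree. -/
lemma totalDegree_line {K ι κ : Type} [Field K] (ℓ : ι → MvPolynomial κ K)
    (hℓ : ∀ i, (ℓ i).totalDegree ≤ 1) (f : MvPolynomial ι K) :
    (aeval ℓ f).totalDegree ≤ f.totalDegree := by
  classical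
  conv_lhs => rw [f.as_sum, map_sum]
  refine (totalDegree_finsetSum _ _).trans (Finset.sup_le fun m hm => ?_)
  rw [aeval_monomial]
  refine (totalDegree_mul _ _).trans ?_
  have h1 : (algebraMap K (MvPolynomial κ K) (coeff m f)).totalDegree = 0 := totalDegree_C _
  rw [h1, zero_add]
  have h2 : (m.prod fun i k => ℓ i ^ k).totalDegree ≤ ∑ i ∈ m.support, m i := by
    refine (totalDegree_finsetProd _ _).trans (Finset.sum_le_sum fun i _ => ?_)
    refine (totalDegree_pow _ _).trans ?_
    calc m i * (ℓ i).totalDegree ≤ m i * 1 := Nat.mul_le_mul_left _ (hℓ i)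
      _ = m i := mul_one _
  exact h2.trans (le_totalDegree hm)

section

variable {K ι R : Type} [Field K] [Fintype ι] [Fintype R]

open Classical in
/-- A linear combination at the point `x + y v • a`, as an affine form. -/
noncomputable def toAFv {d : ℕ} (N' : ℕ) (a : ι → K) (v : Fin d) (f : LF K ι) :
    AF K (ι ⊕ Fin 0 ⊕ (Fin d ⊕ (Fin d × Fin N'))) :=
  (f.c, Sum.elim f.x (Sum.elim (fun _ => 0) (Sum.elim (Pi.single v (∑ i, f.x i * a i))
    (fun p => if p.1 = v then f.r p.2 else 0))))

lemma toAFv_val {d : ℕ} (N' : ℕ) (a : ι → K) (v : Fin d) (f : LF K ι)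
    (x : ι → K) (b : Fin 0 → K) (y : Fin d → K) (g : Fin d → ℕ → K) :
    (toAFv N' a v f).val (pnt x b (Sum.elim y (fun p : Fin d × Fin N' => g p.1 p.2))) =
      f.val (fun i => x i + y v * a i) N' (g v) := by
  classical
  unfold AF.val toAFv LF.val pnt
  simp only [Algebra.algebraMap_self, RingHom.id_apply, Fintype.sum_sum_type, Sum.elim_inl,
    Sum.elim_inr, Finset.univ_eq_empty, Finset.sum_empty, zero_add, Fintype.sum_prod_type]
  rw [Finset.sum_eq_single v (fun w _ hw => by rw [Pi.single_eq_of_ne hw, zero_mul])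
    (fun h => absurd (Finset.mem_univ _) h), Pi.single_eq_same,
    Finset.sum_eq_single v (fun w _ hw => Finset.sum_eq_zero fun s _ => by
      rw [if_neg hw, zero_mul]) (fun h => absurd (Finset.mem_univ _) h), Finset.sum_range]
  simp only [if_true, mul_add, Finset.sum_add_distrib, Finset.sum_mul]
  have e : ∑ i, f.x i * a i * y v = ∑ i, f.x i * (y v * a i) :=
    Finset.sum_congr rfl fun i _ => by ring
  rw [e]
  ring

open Classical in
/-- The coordinates `y v`. -/
noncomputable def outAF2 {K ι V R : Type} [Field K] (v : V) :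
    AF K (ι ⊕ Fin 0 ⊕ (V ⊕ R)) :=
  (0, Pi.single (Sum.inr (Sum.inr (Sum.inl v))) 1)

lemma outAF2_val {K F ι V R : Type} [Field K] [Field F] [Algebra K F] [Fintype ι] [Fintype V]
    [Fintype R] (v : V) (w : ι ⊕ Fin 0 ⊕ (V ⊕ R) → F) :
    (outAF2 v : AF K (ι ⊕ Fin 0 ⊕ (V ⊕ R))).val w = w (Sum.inr (Sum.inr (Sum.inl v))) := by
  classical
  unfold AF.val outAF2
  rw [map_zero, zero_add, Finset.sum_eq_single (Sum.inr (Sum.inr (Sum.inl v)))]
  · simp
  · intro b _ hb
    show algebraMap K F ((Pi.single (Sum.inr (Sum.inr (Sum.inl v))) 1 :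
      ι ⊕ Fin 0 ⊕ (V ⊕ R) → K) b) * w b = 0
    rw [Pi.single_eq_of_ne hb, map_zero, zero_mul]
  · intro h
    exact absurd (Finset.mem_univ _) h

end

lemma eval_line {K ι : Type} [Field K] (z a : ι → K) (r : K) (f : MvPolynomial ι K) :
    Polynomial.eval r (aeval (fun i => Polynomial.C (z i) + Polynomial.C (a i) * Polynomial.X :
      ι → Polynomial K) f) = eval (fun i => z i + r * a i) f := by
  induction f using MvPolynomial.induction_on with
  | C c =>
    rw [aeval_C, eval_C, Polynomial.algebraMap_apply, Polynomial.eval_C]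
    rfl
  | add p q hp hq => rw [map_add, map_add, Polynomial.eval_add, hp, hq]
  | mul_X p i hp =>
    rw [map_mul, map_mul, Polynomial.eval_mul, hp, aeval_X, eval_X, Polynomial.eval_add,
      Polynomial.eval_mul, Polynomial.eval_C, Polynomial.eval_C, Polynomial.eval_X, mul_comm r]

lemma eval_opt {K F ι : Type} [Field K] [Field F] [Algebra K F] (z : ι → F) (r : F)
    (g : MvPolynomial (Option ι) K) :
    Polynomial.eval r (aeval (fun j => Option.elim j Polynomial.X fun i => Polynomial.C (z i) :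
      Option ι → Polynomial F) g) = aeval (fun j => Option.elim j r z : Option ι → F) g := by
  induction g using MvPolynomial.induction_on with
  | C c =>
    rw [aeval_C, aeval_C, Polynomial.algebraMap_apply, Polynomial.eval_C]
  | add p q hp hq => rw [map_add, map_add, Polynomial.eval_add, hp, hq]
  | mul_X p i hp =>
    rw [map_mul, map_mul, Polynomial.eval_mul, hp, aeval_X, aeval_X]
    congr 1
    rcases i with _ | i
    · exact Polynomial.eval_X
    · exact Polynomial.eval_C

lemma aeval_line {K F ι : Type} [Field K] [Field F] [Algebra K F] (z : ι → F) (r : F)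
    (a : ι → K) (f : MvPolynomial ι K) :
    aeval (fun j => Option.elim j r z : Option ι → F)
      (aeval (fun i => X (some i) + C (a i) * X none : ι → MvPolynomial (Option ι) K) f) =
      aeval (fun i => z i + algebraMap K F (a i) * r) f := by
  induction f using MvPolynomial.induction_on with
  | C c =>
    rw [aeval_C, algebraMap_eq, aeval_C, aeval_C]
  | add p q hp hq => rw [map_add, map_add, map_add, hp, hq]
  | mul_X p i hp =>
    rw [map_mul, map_mul, map_mul, hp, aeval_X, aeval_X, map_add, map_mul, aeval_X, aeval_X,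
      aeval_C]
    rfl

lemma closure_mono {K ι V : Type} [Field K] {C C' : Set (V → MvPolynomial ι K)} (h : C ⊆ C')
    {f : V → MvPolynomial ι K} (hf : InClosure C f) : InClosure C' f :=
  fun p hp => hf p fun g hg => hp g (h hg)

/-- **The general theorem for hypersurfaces.** -/
theorem gen_H (hTAY : S_TAY2) (hCMP : S_CMP) (hREC : S_REC2) (hBAS : S_BAS) (hSHIFT : S_SHIFT)
    (hCLOS : S_CLOS) (hPROD : S_PROD) (hID : S_ID) (hDIR : S_DIR) (hSUB : S_SUB) {K ι : Type}
    [Field K] [IsAlgClosed K] [CharZero K] [Fintype ι] {L : ℕ} (t : NTree K ι)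
    (f : MvPolynomial ι K) (hf0 : f ≠ 0) (H : ∀ x, t.Accepts x L ↔ eval x f = 0) :
    InClosure {g : Unit → MvPolynomial ι K | NSComp K ι Unit
      (f.totalDegree * L * (f.totalDegree * (f.totalDegree - 1) / 2) +
        f.totalDegree * ((f.totalDegree + 1) * (f.totalDegree + 2) / 2)) g} fun _ => f := by
  classical
  obtain ⟨d, hd⟩ : ∃ d, f.totalDegree = d := ⟨_, rfl⟩
  obtain ⟨a, c, hc, hY⟩ := hDIR K ι f hf0
  rw [hd] at hY ⊢
  choose Y hY using hY
  have : Infinite K := CharZero.infinite K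
  obtain ⟨I, 𝒰, x, -, hindep⟩ := exists_generic_dense (K := K) (κ := ι) (fun _ => True) (by
    intro p hp
    by_contra h
    apply hp
    refine MvPolynomial.funext fun z => ?_
    rw [map_zero]
    by_contra hz
    exact h ⟨z, hz, trivial⟩)
  have hline : ∀ (z : ι → K) (r : K), eval (fun i => z i + r * a i) f =
      c * ∏ v, (r - Y z v) := by
    intro z r
    have h1 := congrArg (Polynomial.eval r) (hY z)
    rw [Polynomial.eval_mul, Polynomial.eval_C, Polynomial.eval_prod, eval_line] at h1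
    simpa only [Polynomial.eval_sub, Polynomial.eval_X, Polynomial.eval_C] using h1
  have hroot : ∀ (z : ι → K) (r : K), eval (fun i => z i + r * a i) f = 0 ↔
      ∃ v, r = Y z v := by
    intro z r
    rw [hline, mul_eq_zero, or_iff_right hc, Finset.prod_eq_zero_iff]
    simp only [Finset.mem_univ, true_and, sub_eq_zero]
  have hpath : ∀ S, ∃ p ∈ {p : Fin d → Path K ι | ∀ v, p v ∈ paths t},
      ∀ v, (p v).muls ≤ L ∧ ∃ g' : ℕ → K,
        (p v).Ok (fun i => x S i + Y (x S) v * a i) g' 0 := by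
    intro S
    have h1 : ∀ v, ∃ p ∈ paths t, p.muls ≤ L ∧ ∃ g' : ℕ → K,
        p.Ok (fun i => x S i + Y (x S) v * a i) g' 0 := by
      intro v
      obtain ⟨p, hp, hm, g', -, hok⟩ := path_of_acc _ t 0 0 L
        ((H (fun i => x S i + Y (x S) v * a i)).mpr ((hroot _ _).mpr ⟨v, rfl⟩))
      exact ⟨p, hp, hm, g', hok⟩
    choose p h1 h2 using h1
    exact ⟨p, h1, h2⟩
  obtain ⟨p, hp, hpS⟩ := ultra_const (𝒰 := 𝒰) _ (Set.Finite.pi' fun _ : Fin d => paths_finite t)
    (fun S (p : Fin d → Path K ι) => ∀ v, (p v).muls ≤ L ∧ ∃ g' : ℕ → K,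
        (p v).Ok (fun i => x S i + Y (x S) v * a i) g' 0) (Eventually.of_forall hpath)
  have hmuls : ∀ v, (p v).muls ≤ L := by
    obtain ⟨S, hS⟩ := hpS.exists
    exact fun v => (hS v).1
  have hg : ∀ S, ∃ g' : Fin d → ℕ → K, (∀ v, (p v).muls ≤ L ∧ ∃ g' : ℕ → K,
        (p v).Ok (fun i => x S i + Y (x S) v * a i) g' 0) →
        ∀ v, (p v).Ok (fun i => x S i + Y (x S) v * a i) (g' v) 0 := by
    intro S
    by_cases h : ∀ v, (p v).muls ≤ L ∧ ∃ g' : ℕ → K,
        (p v).Ok (fun i => x S i + Y (x S) v * a i) g' 0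
    · choose h1 g' hg' using h
      exact ⟨g', fun _ => hg'⟩
    · exact ⟨0, fun h' => absurd h' h⟩
  choose g hg using hg
  have hgS : ∀ᶠ S in (𝒰 : Filter I),
      ∀ v, (p v).Ok (fun i => x S i + Y (x S) v * a i) (g S v) 0 := hpS.mono fun S hS => hg S hS
  obtain ⟨N', hN'⟩ : ∃ N', ∀ v, (p v).fin 0 ≤ N' :=
    ⟨Finset.univ.sup fun v => (p v).fin 0, fun v => Finset.le_sup (f := fun v => (p v).fin 0)
      (Finset.mem_univ v)⟩
  let xF : ι → UP K 𝒰 := fun e => cu 𝒰 (fun S => x S e)
  let aF : Fin 0 → UP K 𝒰 := fun t => t.elim0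
  have hval : ∀ (yy : I → Fin d → K) (gg : I → Fin d → ℕ → K) (v : Fin d) (f : LF K ι),
      (toAFv N' a v f).val (pnt xF aF (Sum.elim (fun v => cu 𝒰 (fun S => yy S v))
        (fun s : Fin d × Fin N' => cu 𝒰 (fun S => gg S s.1 s.2)))) =
        cu 𝒰 (fun S => f.val (fun i => x S i + yy S v * a i) N' (gg S v)) := by
    intro yy gg v f
    have e2 : pnt xF aF (Sum.elim (fun v => cu 𝒰 (fun S => yy S v))
        (fun s : Fin d × Fin N' => cu 𝒰 (fun S => gg S s.1 s.2))) =
        fun i => cu 𝒰 (fun S => pnt (x S) (fun t : Fin 0 => (t.elim0 : K))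
          (Sum.elim (yy S) (fun s : Fin d × Fin N' => gg S s.1 s.2)) i) := by
      funext i
      rcases i with i | i | i | i
      · rfl
      · exact i.elim0
      · rfl
      · rfl
    rw [e2, los_val (𝒰 := 𝒰) (toAFv N' a v f)
      (fun i S => pnt (x S) (fun t : Fin 0 => (t.elim0 : K))
          (Sum.elim (yy S) (fun s : Fin d × Fin N' => gg S s.1 s.2)) i)]
    congr 1
    funext S
    exact toAFv_val N' a v f (x S) _ (yy S) (gg S)
  let W : Type := (v : Fin d) × Fin ((p v).msys 0).length
  let α' : W → AF K (ι ⊕ Fin 0 ⊕ (Fin d ⊕ (Fin d × Fin N'))) :=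
    fun w => toAFv N' a w.1 (((p w.1).msys 0).get w.2).1
  let β' : W → AF K (ι ⊕ Fin 0 ⊕ (Fin d ⊕ (Fin d × Fin N'))) :=
    fun w => toAFv N' a w.1 (((p w.1).msys 0).get w.2).2.1
  let δ' : W → AF K (ι ⊕ Fin 0 ⊕ (Fin d ⊕ (Fin d × Fin N'))) :=
    fun w => toAFv N' a w.1 (((p w.1).msys 0).get w.2).2.2
  let eW : Fin (∑ v, ((p v).msys 0).length) ≃ W := finSigmaFinEquiv.symm
  let lin : ((v : Fin d) × Fin ((p v).lsys 0).length) →
      AF K (ι ⊕ Fin 0 ⊕ (Fin d ⊕ (Fin d × Fin N'))) :=
    fun w => toAFv N' a w.1 (((p w.1).lsys 0).get w.2)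
  let ne : ((v : Fin d) × Fin ((p v).nsys 0).length) →
      AF K (ι ⊕ Fin 0 ⊕ (Fin d ⊕ (Fin d × Fin N'))) :=
    fun w => toAFv N' a w.1 (((p w.1).nsys 0).get w.2)
  have hlist : ∀ {α : Type} (l : List α) (P : α → Prop),
      (∀ x ∈ l, P x) ↔ ∀ j : Fin l.length, P (l.get j) := by
    intro α l P
    refine ⟨fun h j => h _ (List.get_mem l j), fun h x hx => ?_⟩
    obtain ⟨j, hj⟩ := List.get_of_mem hx
    rw [← hj]
    exact h j
  have hsat : ∀ (yy : I → Fin d → K) (gg : I → Fin d → ℕ → K),
      (Sat (fun j => α' (eW j)) (fun j => β' (eW j)) (fun j => δ' (eW j)) lin ne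
        (pnt xF aF (Sum.elim (fun v => cu 𝒰 (fun S => yy S v))
        (fun s : Fin d × Fin N' => cu 𝒰 (fun S => gg S s.1 s.2)))) ↔
        ∀ᶠ S in (𝒰 : Filter I), ∀ v, (p v).Ok (fun i => x S i + yy S v * a i) (gg S v) 0) := by
    intro yy gg
    have e1 : ∀ S v, (p v).Ok (fun i => x S i + yy S v * a i) (gg S v) 0 ↔
        (∀ j : Fin ((p v).msys 0).length,
          (((p v).msys 0).get j).1.val (fun i => x S i + yy S v * a i) N' (gg S v) *
          (((p v).msys 0).get j).2.1.val (fun i => x S i + yy S v * a i) N' (gg S v) =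
          (((p v).msys 0).get j).2.2.val (fun i => x S i + yy S v * a i) N' (gg S v)) ∧
        (∀ j : Fin ((p v).lsys 0).length,
          (((p v).lsys 0).get j).val (fun i => x S i + yy S v * a i) N' (gg S v) = 0) ∧
        (∀ j : Fin ((p v).nsys 0).length,
          (((p v).nsys 0).get j).val (fun i => x S i + yy S v * a i) N' (gg S v) ≠ 0) := by
      intro S v
      rw [Path.ok_iff _ (gg S v) (p v) 0 N' (hN' v), hlist, hlist, hlist]
    simp only [e1, Filter.eventually_and, Filter.eventually_all]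
    constructor
    · intro h v
      refine ⟨fun j => ?_, fun j => ?_, fun j => ?_⟩
      · have := h.mul (eW.symm ⟨v, j⟩)
        simp only [Equiv.apply_symm_apply] at this
        simp only [α', β', δ', hval yy gg, ← map_mul] at this
        exact cu_eq.mp this
      · have := h.lin ⟨v, j⟩
        simp only [lin, hval yy gg] at this
        exact cu_eq_zero.mp this
      · have := h.ne ⟨v, j⟩
        simp only [ne, hval yy gg] at this
        exact cu_ne_zero.mp this
    · intro h
      refine ⟨fun j => ?_, fun j => ?_, fun j => ?_⟩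
      · simp only [α', β', δ', hval yy gg, ← map_mul]
        exact cu_eq.mpr ((h (eW j).1).1 (eW j).2)
      · simp only [lin, hval yy gg]
        exact cu_eq_zero.mpr ((h j.1).2.1 j.2)
      · simp only [ne, hval yy gg]
        exact cu_ne_zero.mpr ((h j.1).2.2 j.2)
  let eM := Fintype.equivFin (Fin d → Fin d)
  let 𝒞F : Fin (Fintype.card (Fin d → Fin d)) → Fin d → UP K 𝒰 :=
    fun i v => cu 𝒰 (fun S => Y (x S) (eM.symm i v))
  let f' : MvPolynomial (Option ι) K := C c⁻¹ *
    aeval (fun i => X (some i) + C (a i) * X none : ι → MvPolynomial (Option ι) K) f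
  have hd' : f'.totalDegree ≤ d := by
    refine (totalDegree_mul _ _).trans ?_
    rw [totalDegree_C, zero_add, ← hd]
    refine totalDegree_line _ (fun i => ?_) f
    refine (totalDegree_add _ _).trans (max_le ?_ ?_)
    · exact (totalDegree_X _).le
    · refine (totalDegree_mul _ _).trans ?_
      rw [totalDegree_C, zero_add]
      exact (totalDegree_X _).le
  have hinf : Infinite (UP K 𝒰) := by
    have : CharZero (UP K 𝒰) := charZero_of_injective_algebraMap (algebraMap K (UP K 𝒰)).injective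
    exact CharZero.infinite _
  have hf' : (aeval (fun j => Option.elim j Polynomial.X fun i => Polynomial.C (xF i) :
      Option ι → Polynomial (UP K 𝒰)) f') =
      ∏ v, (Polynomial.X - Polynomial.C (cu 𝒰 (fun S => Y (x S) v))) := by
    refine Polynomial.funext fun η => ?_
    obtain ⟨r, rfl⟩ := cu_surj (K := K) (𝒰 := 𝒰) η
    rw [eval_opt, map_mul, aeval_C, aeval_line, Polynomial.eval_prod]
    simp only [Polynomial.eval_sub, Polynomial.eval_X, Polynomial.eval_C]
    have e1 : (fun i => xF i + algebraMap K (UP K 𝒰) (a i) * cu 𝒰 r) =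
        fun i => cu 𝒰 (fun S => x S i + r S * a i) := by
      funext i
      show cu 𝒰 _ + cu 𝒰 _ * cu 𝒰 _ = _
      rw [← map_mul, ← map_add]
      congr 1
      funext S
      show x S i + a i * r S = _
      ring
    rw [e1, cu_aeval (fun S i => x S i + r S * a i) f]
    have e2 : ∀ v, cu 𝒰 r - cu 𝒰 (fun S => Y (x S) v) = cu 𝒰 (fun S => r S - Y (x S) v) :=
      fun v => (map_sub (cu (K := K) 𝒰) _ _).symm
    simp only [e2, hline]
    rw [← map_prod]
    show cu 𝒰 _ * cu 𝒰 _ = _
    rw [← map_mul]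
    congr 1
    funext S
    show c⁻¹ * (c * ∏ v, (r S - Y (x S) v)) = (∏ v, fun S => r S - Y (x S) v) S
    rw [Finset.prod_apply, inv_mul_cancel_left₀ hc]
  have key := main_H (K := K) (F := UP K 𝒰) (M := Fintype.card (Fin d → Fin d)) (d := d)
    hTAY hCMP hREC hBAS hSHIFT hCLOS hPROD hID
    (fun j => α' (eW j)) (fun j => β' (eW j)) (fun j => δ' (eW j)) lin ne
    (fun v => outAF2 v) xF hindep aF
    (Sum.elim (fun v => cu 𝒰 (fun S => Y (x S) v))
      (fun s : Fin d × Fin N' => cu 𝒰 (fun S => g S s.1 s.2)))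
    ((hsat (fun S v => Y (x S) v) g).mpr hgS) 𝒞F
    (by
      intro s hs
      choose r hr using cu_surj (K := K) (𝒰 := 𝒰)
      let yy : I → Fin d → K := fun S v => r (s (Sum.inl v)) S
      let gg : I → Fin d → ℕ → K := fun S v t =>
        if h : t < N' then r (s (Sum.inr (v, ⟨t, h⟩))) S else 0
      have hgg' : ∀ S v, ∀ t : Fin N', gg S v t = r (s (Sum.inr (v, t))) S := by
        intro S v t
        simp only [gg, dif_pos t.2]
      have hs' : s = Sum.elim (fun v => cu 𝒰 (fun S => yy S v))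
          (fun t : Fin d × Fin N' => cu 𝒰 (fun S => gg S t.1 t.2)) := by
        funext t
        rcases t with v | t
        · exact (hr (s (Sum.inl v))).symm
        · simp only [Sum.elim_inr, hgg']
          exact (hr (s (Sum.inr t))).symm
      rw [hs'] at hs
      have h1 := (hsat yy gg).mp hs
      have h2 : ∀ᶠ S in (𝒰 : Filter I), ∃ φ ∈ (Set.univ : Set (Fin d → Fin d)),
          ∀ v, yy S v = Y (x S) (φ v) := by
        filter_upwards [h1] with S hS
        have h3 : ∀ v, ∃ w, yy S v = Y (x S) w := by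
          intro v
          rw [← hroot, ← H]
          exact acc_of_path _ t 0 0 L (p v) (hp v) (hmuls v) (gg S v)
            (fun s hs => absurd hs (Nat.not_lt_zero s)) (hS v)
        choose φ hφ using h3
        exact ⟨φ, Set.mem_univ _, hφ⟩
      obtain ⟨φ, -, hφ⟩ := ultra_const (𝒰 := 𝒰) Set.univ Set.finite_univ _ h2
      refine ⟨eM φ, fun v => ?_⟩
      rw [outAF2_val, hs']
      show cu 𝒰 (fun S => yy S v) = cu 𝒰 (fun S => Y (x S) (eM.symm (eM φ) v))
      rw [Equiv.symm_apply_apply]
      refine cu_eq.mpr ?_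
      filter_upwards [hφ] with S hS
      exact hS v)
    (fun v => cu 𝒰 (fun S => Y (x S) v)) (fun v => by rw [outAF2_val]; rfl)
    f' hd' hf'
  refine hSUB K ι _ a c f hc (closure_mono ?_ key)
  intro g hg
  refine NSComp.mono ?_ hg
  rw [Fintype.card_fin]
  refine Nat.add_le_add_right (Nat.mul_le_mul_right _ ?_) _
  calc ∑ v, ((p v).msys 0).length ≤ ∑ _v : Fin d, L :=
        Finset.sum_le_sum fun v _ => by rw [Path.msys_length]; exact hmuls v
    _ = d * L := by simp

end Pool.Agent.W966.Vg
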