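import Pool.Agent.W966.Vg.Gen2
import Pool.Agent.W966.Vg.Stms5

/-!
# Components of codimension one of nondeterministic sets: the general theorem
-/

set_option autoImplicit false

namespace Pool.Agent.W966.Vg

open MvPolynomial Filter Pool.Agent.W966.Vf

lemma natDegree_line {K ι : Type} [Field K] (ℓ : ι → Polynomial K)
    (hℓ : ∀ i, (ℓ i).natDegree ≤ 1) (f : MvPolynomial ι K) :
    (aeval ℓ f).natDegree ≤ f.totalDegree := by
  classical
  conv_lhs => rw [f.as_sum, map_sum]
  refine Polynomial.natDegree_sum_le_of_forall_le _ _ fun m hm => ?_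
  rw [aeval_monomial]
  refine (Polynomial.natDegree_mul_le).trans ?_
  have h1 : (algebraMap K (Polynomial K) (coeff m f)).natDegree = 0 := Polynomial.natDegree_C _
  rw [h1, zero_add]
  have h2 : (m.prod fun i k => ℓ i ^ k).natDegree ≤ ∑ i ∈ m.support, m i := by
    refine (Polynomial.natDegree_prod_le _ _).trans (Finset.sum_le_sum fun i _ => ?_)
    refine Polynomial.natDegree_pow_le.trans ?_
    calc m i * (ℓ i).natDegree ≤ m i * 1 := Nat.mul_le_mul_left _ (hℓ i)
      _ = m i := mul_one _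
  exact h2.trans (le_totalDegree hm)

/-- The roots on a line, in a list of fixed length. -/
lemma roots_list {K ι : Type} [Field K] (h : MvPolynomial ι K) (a : ι → K) :
    ∃ D : ℕ, ∀ z : ι → K, eval z h ≠ 0 → ∃ Z : Fin D → K, ∀ r,
      eval (fun i => z i + r * a i) h = 0 → ∃ i, r = Z i := by
  classical
  refine ⟨h.totalDegree, fun z hz => ?_⟩
  let q : Polynomial K := aeval (fun i => Polynomial.C (z i) + Polynomial.C (a i) * Polynomial.X :
    ι → Polynomial K) h
  have hq : ∀ r, Polynomial.eval r q = eval (fun i => z i + r * a i) h :=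
    fun r => eval_line z a r h
  have hq0 : q ≠ 0 := by
    intro h0
    apply hz
    have := hq 0
    rw [h0, Polynomial.eval_zero] at this
    simpa using this.symm
  have hdeg : q.natDegree ≤ h.totalDegree := by
    refine natDegree_line _ (fun i => ?_) h
    refine (Polynomial.natDegree_add_le _ _).trans (max_le ?_ ?_)
    · rw [Polynomial.natDegree_C]
      exact Nat.zero_le _
    · exact (Polynomial.natDegree_C_mul_le _ _).trans Polynomial.natDegree_X_le
  have hcard : q.roots.toFinset.card ≤ h.totalDegree :=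
    (Multiset.toFinset_card_le _).trans ((Polynomial.card_roots' q).trans hdeg)
  refine ⟨fun i => q.roots.toFinset.toList.getD i 0, fun r hr => ?_⟩
  have hmem : r ∈ q.roots.toFinset.toList := by
    rw [Finset.mem_toList, Multiset.mem_toFinset, Polynomial.mem_roots hq0, Polynomial.IsRoot, hq]
    exact hr
  obtain ⟨j, hj⟩ := List.get_of_mem hmem
  have hj2 : (j : ℕ) < h.totalDegree := by
    exact lt_of_lt_of_le (lt_of_lt_of_eq j.2 (Finset.length_toList _)) hcard
  refine ⟨⟨j, hj2⟩, ?_⟩
  rw [← hj]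
  show _ = q.roots.toFinset.toList.getD (j : ℕ) 0
  rw [List.getD_eq_getElem _ _ j.2]
  rfl

/-- **The general theorem for components of codimension one.** -/
theorem gen_C (hTAY : S_TAY2) (hCMP : S_CMP) (hREC : S_REC2) (hBAS : S_BAS) (hSHIFT : S_SHIFT)
    (hCLOS : S_CLOS) (hPROD : S_PROD) (hID : S_ID) (hDIR : S_DIR) (hSUB : S_SUB) (hRES : S_RES)
    {K ι : Type} [Field K] [IsAlgClosed K] [CharZero K] [Fintype ι] {L : ℕ} (t : NTree K ι)
    (f g h : MvPolynomial ι K) (hf0 : f ≠ 0) (hfg : IsRelPrime f g) (hh0 : h ≠ 0)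
    (H1 : ∀ x, eval x f = 0 → eval x g ≠ 0 → t.Accepts x L)
    (H2 : ∀ x, t.Accepts x L → eval x h = 0) :
    InClosure {g : Unit → MvPolynomial ι K | NSComp K ι Unit
      (f.totalDegree * L * (f.totalDegree * (f.totalDegree - 1) / 2) +
        f.totalDegree * ((f.totalDegree + 1) * (f.totalDegree + 2) / 2)) g} fun _ => f := by
  classical
  obtain ⟨d, hd⟩ : ∃ d, f.totalDegree = d := ⟨_, rfl⟩
  obtain ⟨a, c, hc, hY⟩ := hDIR K ι f hf0
  rw [hd] at hY ⊢
  choose Y hY using hY
  have : Infinite K := CharZero.infinite K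
  obtain ⟨R, hR0, hR⟩ := hRES K ι f g a hfg
  obtain ⟨I, 𝒰, x, hx, hindep⟩ := exists_generic_dense (K := K) (κ := ι)
    (fun x => eval x R ≠ 0 ∧ eval x h ≠ 0) (by
    intro p hp
    by_contra hcon
    have h1 : p * (R * h) = 0 := by
      refine MvPolynomial.funext fun z => ?_
      rw [map_zero, map_mul, map_mul]
      by_contra hz
      exact hcon ⟨z, left_ne_zero_of_mul hz, left_ne_zero_of_mul (right_ne_zero_of_mul hz),
        right_ne_zero_of_mul (right_ne_zero_of_mul hz)⟩
    exact (mul_ne_zero hp (mul_ne_zero hR0 hh0)) h1)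
  have hline : ∀ (z : ι → K) (r : K), eval (fun i => z i + r * a i) f =
      c * ∏ v, (r - Y z v) := by
    intro z r
    have h1 := congrArg (Polynomial.eval r) (hY z)
    rw [Polynomial.eval_mul, Polynomial.eval_C, Polynomial.eval_prod, eval_line] at h1
    simpa only [Polynomial.eval_sub, Polynomial.eval_X, Polynomial.eval_C] using h1
  have hroot : ∀ (z : ι → K) (r : K), eval (fun i => z i + r * a i) f = 0 ↔
      ∃ v, r = Y z v := by
    intro z r
    rw [hline, mul_eq_zero, or_iff_right hc, Finset.prod_eq_zero_iff]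
    simp only [Finset.mem_univ, true_and, sub_eq_zero]
  have hpath : ∀ S, ∃ p ∈ {p : Fin d → Path K ι | ∀ v, p v ∈ paths t},
      ∀ v, (p v).muls ≤ L ∧ ∃ g' : ℕ → K,
        (p v).Ok (fun i => x S i + Y (x S) v * a i) g' 0 := by
    intro S
    have h1 : ∀ v, ∃ p ∈ paths t, p.muls ≤ L ∧ ∃ g' : ℕ → K,
        p.Ok (fun i => x S i + Y (x S) v * a i) g' 0 := by
      intro v
      obtain ⟨p, hp, hm, g', -, hok⟩ := path_of_acc _ t 0 0 L
        (H1 (fun i => x S i + Y (x S) v * a i) ((hroot _ _).mpr ⟨v, rfl⟩)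
          fun h1 => (hx S).1 (hR _ _ ((hroot _ _).mpr ⟨v, rfl⟩) h1))
      exact ⟨p, hp, hm, g', hok⟩
    choose p h1 h2 using h1
    exact ⟨p, h1, h2⟩
  obtain ⟨p, hp, hpS⟩ := ultra_const (𝒰 := 𝒰) _ (Set.Finite.pi' fun _ : Fin d => paths_finite t)
    (fun S (p : Fin d → Path K ι) => ∀ v, (p v).muls ≤ L ∧ ∃ g' : ℕ → K,
        (p v).Ok (fun i => x S i + Y (x S) v * a i) g' 0) (Eventually.of_forall hpath)
  have hmuls : ∀ v, (p v).muls ≤ L := by
    obtain ⟨S, hS⟩ := hpS.exists
    exact fun v => (hS v).1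
  have hg : ∀ S, ∃ g' : Fin d → ℕ → K, (∀ v, (p v).muls ≤ L ∧ ∃ g' : ℕ → K,
        (p v).Ok (fun i => x S i + Y (x S) v * a i) g' 0) →
        ∀ v, (p v).Ok (fun i => x S i + Y (x S) v * a i) (g' v) 0 := by
    intro S
    by_cases h : ∀ v, (p v).muls ≤ L ∧ ∃ g' : ℕ → K,
        (p v).Ok (fun i => x S i + Y (x S) v * a i) g' 0
    · choose h1 g' hg' using h
      exact ⟨g', fun _ => hg'⟩
    · exact ⟨0, fun h' => absurd h' h⟩
  choose g hg using hg
  have hgS : ∀ᶠ S in (𝒰 : Filter I),
      ∀ v, (p v).Ok (fun i => x S i + Y (x S) v * a i) (g S v) 0 := hpS.mono fun S hS => hg S hS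
  obtain ⟨N', hN'⟩ : ∃ N', ∀ v, (p v).fin 0 ≤ N' :=
    ⟨Finset.univ.sup fun v => (p v).fin 0, fun v => Finset.le_sup (f := fun v => (p v).fin 0)
      (Finset.mem_univ v)⟩
  let xF : ι → UP K 𝒰 := fun e => cu 𝒰 (fun S => x S e)
  let aF : Fin 0 → UP K 𝒰 := fun t => t.elim0
  have hval : ∀ (yy : I → Fin d → K) (gg : I → Fin d → ℕ → K) (v : Fin d) (f : LF K ι),
      (toAFv N' a v f).val (pnt xF aF (Sum.elim (fun v => cu 𝒰 (fun S => yy S v))
        (fun s : Fin d × Fin N' => cu 𝒰 (fun S => gg S s.1 s.2)))) =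
        cu 𝒰 (fun S => f.val (fun i => x S i + yy S v * a i) N' (gg S v)) := by
    intro yy gg v f
    have e2 : pnt xF aF (Sum.elim (fun v => cu 𝒰 (fun S => yy S v))
        (fun s : Fin d × Fin N' => cu 𝒰 (fun S => gg S s.1 s.2))) =
        fun i => cu 𝒰 (fun S => pnt (x S) (fun t : Fin 0 => (t.elim0 : K))
          (Sum.elim (yy S) (fun s : Fin d × Fin N' => gg S s.1 s.2)) i) := by
      funext i
      rcases i with i | i | i | i
      · rfl
      · exact i.elim0
      · rfl
      · rfl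
    rw [e2, los_val (𝒰 := 𝒰) (toAFv N' a v f)
      (fun i S => pnt (x S) (fun t : Fin 0 => (t.elim0 : K))
          (Sum.elim (yy S) (fun s : Fin d × Fin N' => gg S s.1 s.2)) i)]
    congr 1
    funext S
    exact toAFv_val N' a v f (x S) _ (yy S) (gg S)
  let W : Type := (v : Fin d) × Fin ((p v).msys 0).length
  let α' : W → AF K (ι ⊕ Fin 0 ⊕ (Fin d ⊕ (Fin d × Fin N'))) :=
    fun w => toAFv N' a w.1 (((p w.1).msys 0).get w.2).1
  let β' : W → AF K (ι ⊕ Fin 0 ⊕ (Fin d ⊕ (Fin d × Fin N'))) :=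
    fun w => toAFv N' a w.1 (((p w.1).msys 0).get w.2).2.1
  let δ' : W → AF K (ι ⊕ Fin 0 ⊕ (Fin d ⊕ (Fin d × Fin N'))) :=
    fun w => toAFv N' a w.1 (((p w.1).msys 0).get w.2).2.2
  let eW : Fin (∑ v, ((p v).msys 0).length) ≃ W := finSigmaFinEquiv.symm
  let lin : ((v : Fin d) × Fin ((p v).lsys 0).length) →
      AF K (ι ⊕ Fin 0 ⊕ (Fin d ⊕ (Fin d × Fin N'))) :=
    fun w => toAFv N' a w.1 (((p w.1).lsys 0).get w.2)
  let ne : ((v : Fin d) × Fin ((p v).nsys 0).length) →
      AF K (ι ⊕ Fin 0 ⊕ (Fin d ⊕ (Fin d × Fin N'))) :=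
    fun w => toAFv N' a w.1 (((p w.1).nsys 0).get w.2)
  have hlist : ∀ {α : Type} (l : List α) (P : α → Prop),
      (∀ x ∈ l, P x) ↔ ∀ j : Fin l.length, P (l.get j) := by
    intro α l P
    refine ⟨fun h j => h _ (List.get_mem l j), fun h x hx => ?_⟩
    obtain ⟨j, hj⟩ := List.get_of_mem hx
    rw [← hj]
    exact h j
  have hsat : ∀ (yy : I → Fin d → K) (gg : I → Fin d → ℕ → K),
      (Sat (fun j => α' (eW j)) (fun j => β' (eW j)) (fun j => δ' (eW j)) lin ne
        (pnt xF aF (Sum.elim (fun v => cu 𝒰 (fun S => yy S v))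
        (fun s : Fin d × Fin N' => cu 𝒰 (fun S => gg S s.1 s.2)))) ↔
        ∀ᶠ S in (𝒰 : Filter I), ∀ v, (p v).Ok (fun i => x S i + yy S v * a i) (gg S v) 0) := by
    intro yy gg
    have e1 : ∀ S v, (p v).Ok (fun i => x S i + yy S v * a i) (gg S v) 0 ↔
        (∀ j : Fin ((p v).msys 0).length,
          (((p v).msys 0).get j).1.val (fun i => x S i + yy S v * a i) N' (gg S v) *
          (((p v).msys 0).get j).2.1.val (fun i => x S i + yy S v * a i) N' (gg S v) =
          (((p v).msys 0).get j).2.2.val (fun i => x S i + yy S v * a i) N' (gg S v)) ∧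
        (∀ j : Fin ((p v).lsys 0).length,
          (((p v).lsys 0).get j).val (fun i => x S i + yy S v * a i) N' (gg S v) = 0) ∧
        (∀ j : Fin ((p v).nsys 0).length,
          (((p v).nsys 0).get j).val (fun i => x S i + yy S v * a i) N' (gg S v) ≠ 0) := by
      intro S v
      rw [Path.ok_iff _ (gg S v) (p v) 0 N' (hN' v), hlist, hlist, hlist]
    simp only [e1, Filter.eventually_and, Filter.eventually_all]
    constructor
    · intro h v
      refine ⟨fun j => ?_, fun j => ?_, fun j => ?_⟩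
      · have := h.mul (eW.symm ⟨v, j⟩)
        simp only [Equiv.apply_symm_apply] at this
        simp only [α', β', δ', hval yy gg, ← map_mul] at this
        exact cu_eq.mp this
      · have := h.lin ⟨v, j⟩
        simp only [lin, hval yy gg] at this
        exact cu_eq_zero.mp this
      · have := h.ne ⟨v, j⟩
        simp only [ne, hval yy gg] at this
        exact cu_ne_zero.mp this
    · intro h
      refine ⟨fun j => ?_, fun j => ?_, fun j => ?_⟩
      · simp only [α', β', δ', hval yy gg, ← map_mul]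
        exact cu_eq.mpr ((h (eW j).1).1 (eW j).2)
      · simp only [lin, hval yy gg]
        exact cu_eq_zero.mpr ((h j.1).2.1 j.2)
      · simp only [ne, hval yy gg]
        exact cu_ne_zero.mpr ((h j.1).2.2 j.2)
  obtain ⟨D, hD⟩ := roots_list h a
  choose Z hZ using fun S => hD (x S) (hx S).2
  let eM := Fintype.equivFin (Fin d → Fin D)
  let 𝒞F : Fin (Fintype.card (Fin d → Fin D)) → Fin d → UP K 𝒰 :=
    fun i v => cu 𝒰 (fun S => Z S (eM.symm i v))
  let f' : MvPolynomial (Option ι) K := C c⁻¹ *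
    aeval (fun i => X (some i) + C (a i) * X none : ι → MvPolynomial (Option ι) K) f
  have hd' : f'.totalDegree ≤ d := by
    refine (totalDegree_mul _ _).trans ?_
    rw [totalDegree_C, zero_add, ← hd]
    refine totalDegree_line _ (fun i => ?_) f
    refine (totalDegree_add _ _).trans (max_le ?_ ?_)
    · exact (totalDegree_X _).le
    · refine (totalDegree_mul _ _).trans ?_
      rw [totalDegree_C, zero_add]
      exact (totalDegree_X _).le
  have hinf : Infinite (UP K 𝒰) := by
    have : CharZero (UP K 𝒰) := charZero_of_injective_algebraMap (algebraMap K (UP K 𝒰)).injective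
    exact CharZero.infinite _
  have hf' : (aeval (fun j => Option.elim j Polynomial.X fun i => Polynomial.C (xF i) :
      Option ι → Polynomial (UP K 𝒰)) f') =
      ∏ v, (Polynomial.X - Polynomial.C (cu 𝒰 (fun S => Y (x S) v))) := by
    refine Polynomial.funext fun η => ?_
    obtain ⟨r, rfl⟩ := cu_surj (K := K) (𝒰 := 𝒰) η
    rw [eval_opt, map_mul, aeval_C, aeval_line, Polynomial.eval_prod]
    simp only [Polynomial.eval_sub, Polynomial.eval_X, Polynomial.eval_C]
    have e1 : (fun i => xF i + algebraMap K (UP K 𝒰) (a i) * cu 𝒰 r) =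
        fun i => cu 𝒰 (fun S => x S i + r S * a i) := by
      funext i
      show cu 𝒰 _ + cu 𝒰 _ * cu 𝒰 _ = _
      rw [← map_mul, ← map_add]
      congr 1
      funext S
      show x S i + a i * r S = _
      ring
    rw [e1, cu_aeval (fun S i => x S i + r S * a i) f]
    have e2 : ∀ v, cu 𝒰 r - cu 𝒰 (fun S => Y (x S) v) = cu 𝒰 (fun S => r S - Y (x S) v) :=
      fun v => (map_sub (cu (K := K) 𝒰) _ _).symm
    simp only [e2, hline]
    rw [← map_prod]
    show cu 𝒰 _ * cu 𝒰 _ = _
    rw [← map_mul]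
    congr 1
    funext S
    show c⁻¹ * (c * ∏ v, (r S - Y (x S) v)) = (∏ v, fun S => r S - Y (x S) v) S
    rw [Finset.prod_apply, inv_mul_cancel_left₀ hc]
  have key := main_H (K := K) (F := UP K 𝒰) (M := Fintype.card (Fin d → Fin D)) (d := d)
    hTAY hCMP hREC hBAS hSHIFT hCLOS hPROD hID
    (fun j => α' (eW j)) (fun j => β' (eW j)) (fun j => δ' (eW j)) lin ne
    (fun v => outAF2 v) xF hindep aF
    (Sum.elim (fun v => cu 𝒰 (fun S => Y (x S) v))
      (fun s : Fin d × Fin N' => cu 𝒰 (fun S => g S s.1 s.2)))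
    ((hsat (fun S v => Y (x S) v) g).mpr hgS) 𝒞F
    (by
      intro s hs
      choose r hr using cu_surj (K := K) (𝒰 := 𝒰)
      let yy : I → Fin d → K := fun S v => r (s (Sum.inl v)) S
      let gg : I → Fin d → ℕ → K := fun S v t =>
        if h : t < N' then r (s (Sum.inr (v, ⟨t, h⟩))) S else 0
      have hgg' : ∀ S v, ∀ t : Fin N', gg S v t = r (s (Sum.inr (v, t))) S := by
        intro S v t
        simp only [gg, dif_pos t.2]
      have hs' : s = Sum.elim (fun v => cu 𝒰 (fun S => yy S v))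
          (fun t : Fin d × Fin N' => cu 𝒰 (fun S => gg S t.1 t.2)) := by
        funext t
        rcases t with v | t
        · exact (hr (s (Sum.inl v))).symm
        · simp only [Sum.elim_inr, hgg']
          exact (hr (s (Sum.inr t))).symm
      rw [hs'] at hs
      have h1 := (hsat yy gg).mp hs
      have h2 : ∀ᶠ S in (𝒰 : Filter I), ∃ φ ∈ (Set.univ : Set (Fin d → Fin D)),
          ∀ v, yy S v = Z S (φ v) := by
        filter_upwards [h1] with S hS
        have h3 : ∀ v, ∃ w, yy S v = Z S w := by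
          intro v
          refine hZ S _ (H2 _ ?_)
          exact acc_of_path _ t 0 0 L (p v) (hp v) (hmuls v) (gg S v)
            (fun s hs => absurd hs (Nat.not_lt_zero s)) (hS v)
        choose φ hφ using h3
        exact ⟨φ, Set.mem_univ _, hφ⟩
      obtain ⟨φ, -, hφ⟩ := ultra_const (𝒰 := 𝒰) Set.univ Set.finite_univ _ h2
      refine ⟨eM φ, fun v => ?_⟩
      rw [outAF2_val, hs']
      show cu 𝒰 (fun S => yy S v) = cu 𝒰 (fun S => Z S (eM.symm (eM φ) v))
      rw [Equiv.symm_apply_apply]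
      refine cu_eq.mpr ?_
      filter_upwards [hφ] with S hS
      exact hS v)
    (fun v => cu 𝒰 (fun S => Y (x S) v)) (fun v => by rw [outAF2_val]; rfl)
    f' hd' hf'
  refine hSUB K ι _ a c f hc (closure_mono ?_ key)
  intro g hg
  refine NSComp.mono ?_ hg
  rw [Fintype.card_fin]
  refine Nat.add_le_add_right (Nat.mul_le_mul_right _ ?_) _
  calc ∑ v, ((p v).msys 0).length ≤ ∑ _v : Fin d, L :=
        Finset.sum_le_sum fun v _ => by rw [Path.msys_length]; exact hmuls v
    _ = d * L := by simp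

end Pool.Agent.W966.Vg
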