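import Pool.Agent.W966.Vg.Parts
import Pool.Agent.W966.Vg.Gen4

/-!
# Components of codimension one of nondeterministic sets
-/

set_option autoImplicit false

namespace Pool.Agent.W966.Vg

open MvPolynomial

/-- **Components**, nonscalar complexity. -/
theorem comp_ns (hRES : S_RES) {K ι : Type} [Field K] [IsAlgClosed K] [CharZero K] [Fintype ι]
    {L : ℕ} (t : NTree K ι) (f g h : MvPolynomial ι K) (hf0 : f ≠ 0) (hfg : IsRelPrime f g)
    (hh0 : h ≠ 0)
    (H1 : ∀ x, eval x f = 0 → eval x g ≠ 0 → t.Accepts x L)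
    (H2 : ∀ x, t.Accepts x L → eval x h = 0) :
    InClosure {g : Unit → MvPolynomial ι K | NSComp K ι Unit
      (f.totalDegree * L * (f.totalDegree * (f.totalDegree - 1) / 2) +
        f.totalDegree * ((f.totalDegree + 1) * (f.totalDegree + 2) / 2)) g} fun _ => f :=
  gen_C Pool.Agent.W975.VH.tay2 Pool.Agent.W320.VG.cmp rec2
    Pool.Agent.W366.VG.bas Pool.Agent.W366.VG.shift Pool.Agent.W320.VG.clos
    Pool.Agent.W976.VH.prod_ Pool.Agent.W976.VH.id_ Pool.Agent.W976.VH.dir_
    Pool.Agent.W191.VH.sub hRES t f g h hf0 hfg hh0 H1 H2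

end Pool.Agent.W966.Vg
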