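import Pool.Agent.W613.VG.Rec
import Pool.Agent.W966.Vg.Stms2

/-!
# The recursion is a computation, with every Taylor coefficient as an output

Adapted from `Pool.Agent.W613.VG.Rec`.
-/

set_option autoImplicit false

namespace Pool.Agent.W966.Vg

open MvPolynomial Pool.Agent.W966.Vf Pool.Agent.W613.VG

set_option maxHeartbeats 4000000 in
theorem rec2 : S_REC2 := by
  intro K Ω Ω' ι N V J₂ _ _ _ _ _ _ _ _ _ _ L d e α β lam mu u W o κ hK hα hT
  classical
  -- the recursion
  let F : ℕ → (ℕ → N → MvPolynomial ι (PowerSeries Ω)) → N → MvPolynomial ι (PowerSeries Ω) :=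
    fun k p s => ∑ j, C (lam s j) *
      ∑ i ∈ Finset.Ioo 0 k, lin (α j) (p i) * lin (β j) (p (k - i)) +
      if k = 1 then ∑ i, C (mu s i) * X i else 0
  let p : ℕ → N → MvPolynomial ι (PowerSeries Ω) := recp F 0
  have hp : ∀ k, p k = F k p := by
    intro k
    apply recp_eq
    intro k p q h
    funext s
    simp only [F]
    congr 1
    apply Finset.sum_congr rfl
    intro j _
    congr 1
    apply Finset.sum_congr rfl
    intro i hi
    rw [Finset.mem_Ioo] at hi
    rw [h i hi.2, h (k - i) (by omega)]
  -- evaluation
  let ev : MvPolynomial ι (PowerSeries Ω) →+* PowerSeries Ω' :=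
    eval₂Hom (PowerSeries.map (algebraMap Ω Ω')) (fun i => PowerSeries.C (u i))
  have evC : ∀ a, ev (C a) = PowerSeries.map (algebraMap Ω Ω') a := fun a => eval₂_C _ _ _
  have evX : ∀ i, ev (X i) = PowerSeries.C (u i) := fun i => eval₂_X _ _ _
  have evK : ∀ z : K, ev (algebraMap K (MvPolynomial ι (PowerSeries Ω)) z) =
      algebraMap K (PowerSeries Ω') z := by
    intro z
    have e1 : algebraMap K (MvPolynomial ι (PowerSeries Ω)) z =
        C (PowerSeries.C (algebraMap K Ω z)) := by
      rw [MvPolynomial.algebraMap_apply, PowerSeries.algebraMap_apply]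
    have e2 : algebraMap K (PowerSeries Ω') z = PowerSeries.C (algebraMap K Ω' z) :=
      PowerSeries.algebraMap_apply
    rw [e1, evC, e2, PowerSeries.map_C, hK]
  have evlin : ∀ (f : AF K N) (w : N → MvPolynomial ι (PowerSeries Ω)),
      ev (lin f w) = lin f (fun s => ev (w s)) := by
    intro f w
    simp only [lin, map_sum, map_mul, evK]
  have lin_smul : ∀ (f : AF K N) (x : PowerSeries Ω') (w : N → PowerSeries Ω'),
      lin f (fun s => x * w s) = x * lin f w := by
    intro f x w
    simp only [lin, Finset.mul_sum]
    apply Finset.sum_congr rfl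
    intro s _
    ring
  -- the values
  have hev : ∀ k, 1 ≤ k → ∀ s, ev (p k s) = PowerSeries.X ^ (e * (2 * k - 1)) * W k s := by
    intro k
    induction k using Nat.strong_induction_on with
    | _ k ih =>
      intro hk s
      have h1 : ev (p k s) = ∑ j, PowerSeries.map (algebraMap Ω Ω') (lam s j) *
          ∑ i ∈ Finset.Ioo 0 k, lin (α j) (fun s => ev (p i s)) *
            lin (β j) (fun s => ev (p (k - i) s)) +
          if k = 1 then ∑ i, PowerSeries.map (algebraMap Ω Ω') (mu s i) * PowerSeries.C (u i)
            else 0 := by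
        rw [hp k]
        simp only [F, map_add, map_sum, map_mul, evC, evlin]
        congr 1
        split_ifs
        · simp only [map_sum, map_mul, evC, evX]
        · exact map_zero _
      have h2 : ∀ j, ∑ i ∈ Finset.Ioo 0 k, lin (α j) (fun s => ev (p i s)) *
            lin (β j) (fun s => ev (p (k - i) s)) = PowerSeries.X ^ (e * (2 * k - 2)) *
            ∑ i ∈ Finset.Ioo 0 k, lin (α j) (W i) * lin (β j) (W (k - i)) := by
        intro j
        rw [Finset.mul_sum]
        apply Finset.sum_congr rfl
        intro i hi
        rw [Finset.mem_Ioo] at hi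
        have e1 : (fun s => ev (p i s)) = fun s => PowerSeries.X ^ (e * (2 * i - 1)) * W i s := by
          funext s
          exact ih i hi.2 hi.1 s
        have e2 : (fun s => ev (p (k - i) s)) =
            fun s => PowerSeries.X ^ (e * (2 * (k - i) - 1)) * W (k - i) s := by
          funext s
          exact ih (k - i) (by omega) (by omega) s
        rw [e1, e2, lin_smul, lin_smul]
        have e3 : e * (2 * k - 2) = e * (2 * i - 1) + e * (2 * (k - i) - 1) := by
          rw [← mul_add]
          congr 1
          omega
        rw [e3, pow_add]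
        ring
      rw [h1]
      simp only [h2]
      have h3 := hT k hk s
      have e4 : e * (2 * k - 1) = e * (2 * k - 2) + e := by
        have : 2 * k - 1 = (2 * k - 2) + 1 := by omega
        rw [this, mul_add, mul_one]
      rw [e4, pow_add, mul_assoc, h3, mul_add, Finset.mul_sum]
      congr 1
      · apply Finset.sum_congr rfl
        intro j _
        ring
      · by_cases h : k = 1
        · subst h
          simp
        · rw [if_neg h, mul_zero]
  -- membership
  have lin_mem : ∀ (l : ℕ) (g : ℕ → MvPolynomial ι (PowerSeries Ω)) (f : AF K N)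
      (w : N → MvPolynomial ι (PowerSeries Ω)), (∀ s, w s ∈ Sp l g) → lin f w ∈ Sp l g := by
    intro l g f w hw
    apply Submodule.sum_mem
    intro s _
    exact C_mul_mem_Sp l g (algebraMap K (PowerSeries Ω) (f.2 s)) (w s) (hw s)
  have hM : ∀ k : ℕ, L * ((k + 1) * (k + 1 - 1) / 2) = L * (k * (k - 1) / 2) + L * k := by
    intro k
    rw [← Nat.choose_two_right, ← Nat.choose_two_right, Nat.choose_succ_succ' k 1,
      Nat.choose_one_right]
    ring
  have hcomp : ∀ k, ∃ g : ℕ → MvPolynomial ι (PowerSeries Ω), Vld (L * (k * (k - 1) / 2)) g ∧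
      ∀ i ≤ k, ∀ s, p i s ∈ Sp (L * (k * (k - 1) / 2)) g := by
    intro k
    induction k with
    | zero =>
      refine ⟨0, ?_, ?_⟩
      · intro r hr
        simp at hr
      · intro i hi s
        obtain rfl : i = 0 := by omega
        rw [hp 0]
        simp [F]
    | succ k ih =>
      obtain ⟨g, hg, hpg⟩ := ih
      let x : Fin (L * k) → MvPolynomial ι (PowerSeries Ω) := fun t =>
        lin (α (Sum.inl (finProdFinEquiv.symm t).1)) (p ((finProdFinEquiv.symm t).2 + 1))
      let y : Fin (L * k) → MvPolynomial ι (PowerSeries Ω) := fun t =>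
        lin (β (Sum.inl (finProdFinEquiv.symm t).1)) (p (k - (finProdFinEquiv.symm t).2))
      obtain ⟨g', hg', hgg', hxy⟩ := vld_ext _ (L * k) g hg x y
        (fun t => lin_mem _ _ _ _ fun s => hpg _ (by omega) s)
        (fun t => lin_mem _ _ _ _ fun s => hpg _ (by omega) s)
      rw [hM k]
      refine ⟨g', hg', ?_⟩
      intro i hi s
      rcases Nat.lt_or_ge k i with h | h
      · obtain rfl : i = k + 1 := by omega
        rw [hp (k + 1)]
        apply Submodule.add_mem
        · apply Submodule.sum_mem
          intro j _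
          apply C_mul_mem_Sp
          apply Submodule.sum_mem
          intro i hi
          rw [Finset.mem_Ioo] at hi
          rcases j with j | j
          · have h1 := hxy (finProdFinEquiv (j, ⟨i - 1, by omega⟩))
            simp only [x, y, Equiv.symm_apply_apply] at h1
            have e1 : i - 1 + 1 = i := by omega
            have e2 : k - (i - 1) = k + 1 - i := by omega
            rw [e1, e2] at h1
            exact h1
          · rw [hα j, lin_zero', zero_mul]
            exact Submodule.zero_mem _
        · split_ifs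
          · apply Submodule.sum_mem
            intro i _
            exact C_mul_mem_Sp _ _ _ _ (X_mem_Sp _ _ i)
          · exact Submodule.zero_mem _
      · exact Sp_mono (by omega) hgg' (hpg i h s)
  obtain ⟨g, hg, hpg⟩ := hcomp d
  refine ⟨fun vk => if vk.2 = 0 then C (PowerSeries.X ^ (2 * d * e) * κ vk.1) else
    C (PowerSeries.X ^ (2 * d * e - e * (2 * (vk.2 : ℕ) - 1))) * lin (o vk.1) (p vk.2),
    ?_, ?_, ?_⟩
  · intro v
    dsimp only
    rw [if_pos rfl]
    change ev _ = _
    rw [evC, map_mul, map_pow, PowerSeries.map_X]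
  · intro v k hk
    dsimp only
    rw [if_neg hk]
    change ev _ = _
    have hk1 : 1 ≤ (k : ℕ) := Nat.one_le_iff_ne_zero.mpr fun h => hk (Fin.ext h)
    have hk2 : (k : ℕ) ≤ d := Nat.lt_succ_iff.mp k.2
    rw [map_mul, evC, evlin, map_pow, PowerSeries.map_X]
    have e1 : (fun s => ev (p k s)) =
        fun s => PowerSeries.X ^ (e * (2 * (k : ℕ) - 1)) * W k s := by
      funext s
      exact hev k hk1 s
    rw [e1, lin_smul, ← mul_assoc, ← pow_add]
    congr 2
    have h1 : e * (2 * (k : ℕ) - 1) ≤ e * (2 * d) := Nat.mul_le_mul_left e (by omega)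
    have h2 : e * (2 * d) = 2 * d * e := by ring
    omega
  · apply nscomp_of_vld _ g hg
    rintro ⟨v, k⟩
    dsimp only
    split_ifs with h
    · exact C_mem_Sp _ _ _
    · have hk2 : (k : ℕ) ≤ d := Nat.lt_succ_iff.mp k.2
      apply C_mul_mem_Sp
      apply lin_mem
      intro s
      exact hpg k hk2 s

end Pool.Agent.W966.Vg
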