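import Pool.Agent.W966.Vg.Gen2
import Pool.Agent.W966.Vg.Rec2
import Pool.Agent.W975.VG.Tay
import Pool.Agent.W975.VH.Tay2
import Pool.Agent.W976.VH.Prod
import Pool.Agent.W976.VH.Id
import Pool.Agent.W976.VH.Dir
import Pool.Agent.W191.VH.Sub
import Pool.Agent.W337.VG.Tot
import Pool.Agent.W320.VG.Cmp
import Pool.Agent.W320.VG.Clos
import Pool.Agent.W366.VG.Bas
import Pool.Agent.W613.VG.Rec

/-!
# Nondeterministic decision and verification: all parts together
-/

set_option autoImplicit false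

namespace Pool.Agent.W966.Vg

open MvPolynomial

/-- **Graphs of polynomial maps**, nonscalar complexity. -/
theorem graph_ns {K ι V : Type} [Field K] [IsAlgClosed K] [CharZero K] [Fintype ι] [Fintype V]
    {L M d : ℕ} (t : NTree K (ι ⊕ V)) (f : V → MvPolynomial ι K)
    (hd : ∀ v, (f v).totalDegree ≤ d)
    (H : ∀ p : MvPolynomial ι K, p ≠ 0 → ∃ x : ι → K, eval x p ≠ 0 ∧
      t.Accepts (Sum.elim x fun v => eval x (f v)) L ∧
      ∃ 𝒞 : Fin M → V → K, ∀ y : V → K, t.Accepts (Sum.elim x y) L → ∃ i, y = 𝒞 i) :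
    InClosure {g | NSComp K ι V (L * (d * (d - 1) / 2)) g} f :=
  gen Pool.Agent.W975.VG.tay Pool.Agent.W320.VG.cmp Pool.Agent.W613.VG.rec_main
    Pool.Agent.W366.VG.bas Pool.Agent.W366.VG.shift Pool.Agent.W320.VG.clos t f hd H

/-- **Hypersurfaces**, nonscalar complexity. -/
theorem hyper_ns {K ι : Type} [Field K] [IsAlgClosed K] [CharZero K] [Fintype ι] {L : ℕ}
    (t : NTree K ι) (f : MvPolynomial ι K) (hf0 : f ≠ 0)
    (H : ∀ x, t.Accepts x L ↔ eval x f = 0) :
    InClosure {g : Unit → MvPolynomial ι K | NSComp K ι Unit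
      (f.totalDegree * L * (f.totalDegree * (f.totalDegree - 1) / 2) +
        f.totalDegree * ((f.totalDegree + 1) * (f.totalDegree + 2) / 2)) g} fun _ => f :=
  gen_H Pool.Agent.W975.VH.tay2 Pool.Agent.W320.VG.cmp rec2
    Pool.Agent.W366.VG.bas Pool.Agent.W366.VG.shift Pool.Agent.W320.VG.clos
    Pool.Agent.W976.VH.prod_ Pool.Agent.W976.VH.id_ Pool.Agent.W976.VH.dir_
    Pool.Agent.W191.VH.sub t f hf0 H

/-- From nonscalar to total complexity, in closures. -/
theorem closure_total {K ι V : Type} [Field K] [Fintype ι] [Fintype V] {M M' : ℕ} (hM : M ≤ M')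
    {f : V → MvPolynomial ι K} (h : InClosure {g | NSComp K ι V M g} f) :
    InClosure {g | SLComp K ι V ((M' + Fintype.card V) *
      (4 * (Fintype.card ι + M') + 1)) g} f :=
  closure_mono (fun g hg => Pool.Agent.W337.VG.tot K ι V M' g (NSComp.mono hM hg)) h

end Pool.Agent.W966.Vg
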