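import Pool.Agent.W966.Vg.Defs

/-!
# Paths through a nondeterministic computation tree
-/

set_option autoImplicit false

namespace Pool.Agent.W966.Vg

/-- A path through a tree which ends in acceptance. -/
inductive Path (k ι : Type) : Type
  | stop : Path k ι
  | mul (f h : LF k ι) (next : Path k ι) : Path k ι
  | div (f h : LF k ι) (next : Path k ι) : Path k ι
  | guess (next : Path k ι) : Path k ι
  | isz (f : LF k ι) (next : Path k ι) : Path k ι
  | nz (f : LF k ι) (next : Path k ι) : Path k ι

variable {k ι : Type} [Field k] [Fintype ι]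

lemma LF.val_congr {R : Type} [CommRing R] [Algebra k R] (f : LF k ι) (x : ι → R) {l : ℕ}
    {g g' : ℕ → R} (h : ∀ s < l, g s = g' s) : f.val x l g = f.val x l g' := by
  unfold LF.val
  congr 1
  exact Finset.sum_congr rfl fun s hs => by rw [h s (Finset.mem_range.mp hs)]

/-- The registers `g` are the results along the path. -/
def Path.Ok (x : ι → k) (g : ℕ → k) : Path k ι → ℕ → Prop
  | .stop, _ => True
  | .mul f h next, l => g l = f.val x l g * h.val x l g ∧ next.Ok x g (l + 1)
  | .div f h next, l => h.val x l g ≠ 0 ∧ g l = f.val x l g / h.val x l g ∧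
      next.Ok x g (l + 1)
  | .guess next, l => next.Ok x g (l + 1)
  | .isz f next, l => f.val x l g = 0 ∧ next.Ok x g l
  | .nz f next, l => f.val x l g ≠ 0 ∧ next.Ok x g l

/-- The number of registers at the end. -/
def Path.fin : Path k ι → ℕ → ℕ
  | .stop, l => l
  | .mul _ _ next, l => next.fin (l + 1)
  | .div _ _ next, l => next.fin (l + 1)
  | .guess next, l => next.fin (l + 1)
  | .isz _ next, l => next.fin l
  | .nz _ next, l => next.fin l

/-- The number of multiplications and divisions. -/
def Path.muls : Path k ι → ℕ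
  | .stop => 0
  | .mul _ _ next => next.muls + 1
  | .div _ _ next => next.muls + 1
  | .guess next => next.muls
  | .isz _ next => next.muls
  | .nz _ next => next.muls

/-- The paths of a tree. -/
def paths : NTree k ι → Set (Path k ι)
  | .accept => {.stop}
  | .reject => ∅
  | .mul f h next => Path.mul f h '' paths next
  | .div f h next => Path.div f h '' paths next
  | .guess next => Path.guess '' paths next
  | .test f yes no => Path.isz f '' paths yes ∪ Path.nz f '' paths no
  | .choose _ next => ⋃ i, paths (next i)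

omit [Field k] [Fintype ι] in
lemma paths_finite (t : NTree k ι) : (paths t).Finite := by
  induction t with
  | accept => exact Set.finite_singleton _
  | reject => exact Set.finite_empty
  | mul f h next ih => exact ih.image _
  | div f h next ih => exact ih.image _
  | guess next ih => exact ih.image _
  | test f yes no ihy ihn => exact (ihy.image _).union (ihn.image _)
  | choose r next ih => exact Set.finite_iUnion ih

/-- **From runs to paths.** -/
theorem path_of_acc (x : ι → k) (t : NTree k ι) : ∀ (l : ℕ) (g : ℕ → k) (L : ℕ), t.Acc x l g L →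
      ∃ p ∈ paths t, p.muls ≤ L ∧ ∃ g' : ℕ → k, (∀ s < l, g' s = g s) ∧ p.Ok x g' l := by
  induction t with
  | accept =>
    intro l g L h
    exact ⟨.stop, rfl, Nat.zero_le _, g, fun _ _ => rfl, trivial⟩
  | reject =>
    intro l g L h
    exact absurd h id
  | mul f h next ih =>
    intro l g L hh
    obtain ⟨p, hp, hm, g', hg', hok⟩ := ih _ _ _ hh.2
    have hlt : ∀ s < l, g' s = g s := fun s hs => by
      rw [hg' s (by omega), Function.update_of_ne (by omega)]
    refine ⟨.mul f h p, ⟨p, hp, rfl⟩, ?_, g', hlt, ⟨?_, hok⟩⟩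
    · have := hh.1
      simp only [Path.muls]
      omega
    · rw [hg' l (by omega), Function.update_self, f.val_congr _ hlt, h.val_congr _ hlt]
  | div f h next ih =>
    intro l g L hh
    obtain ⟨p, hp, hm, g', hg', hok⟩ := ih _ _ _ hh.2.2
    have hlt : ∀ s < l, g' s = g s := fun s hs => by
      rw [hg' s (by omega), Function.update_of_ne (by omega)]
    refine ⟨.div f h p, ⟨p, hp, rfl⟩, ?_, g', hlt, ⟨?_, ?_, hok⟩⟩
    · have := hh.1
      simp only [Path.muls]
      omega
    · rw [h.val_congr _ hlt]
      exact hh.2.1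
    · rw [hg' l (by omega), Function.update_self, f.val_congr _ hlt, h.val_congr _ hlt]
  | guess next ih =>
    intro l g L hh
    obtain ⟨v, hv⟩ := hh
    obtain ⟨p, hp, hm, g', hg', hok⟩ := ih _ _ _ hv
    have hlt : ∀ s < l, g' s = g s := fun s hs => by
      rw [hg' s (by omega), Function.update_of_ne (by omega)]
    exact ⟨.guess p, ⟨p, hp, rfl⟩, hm, g', hlt, hok⟩
  | test f yes no ihy ihn =>
    intro l g L hh
    rcases hh with hh | hh
    · obtain ⟨p, hp, hm, g', hg', hok⟩ := ihy _ _ _ hh.2
      refine ⟨.isz f p, Or.inl ⟨p, hp, rfl⟩, hm, g', hg', ⟨?_, hok⟩⟩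
      rw [f.val_congr _ hg']
      exact hh.1
    · obtain ⟨p, hp, hm, g', hg', hok⟩ := ihn _ _ _ hh.2
      refine ⟨.nz f p, Or.inr ⟨p, hp, rfl⟩, hm, g', hg', ⟨?_, hok⟩⟩
      rw [f.val_congr _ hg']
      exact hh.1
  | choose r next ih =>
    intro l g L hh
    obtain ⟨i, hi⟩ := hh
    obtain ⟨p, hp, hm, g', hg', hok⟩ := ih i _ _ _ hi
    exact ⟨p, Set.mem_iUnion.mpr ⟨i, hp⟩, hm, g', hg', hok⟩

/-- **From paths to runs.** -/
theorem acc_of_path (x : ι → k) (t : NTree k ι) :
    ∀ (l : ℕ) (g : ℕ → k) (L : ℕ) (p : Path k ι), p ∈ paths t → p.muls ≤ L →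
      ∀ g' : ℕ → k, (∀ s < l, g' s = g s) → p.Ok x g' l → t.Acc x l g L := by
  induction t with
  | accept =>
    intro l g L p hp hm g' hg' hok
    exact trivial
  | reject =>
    intro l g L p hp hm g' hg' hok
    exact absurd hp (Set.notMem_empty p)
  | mul f h next ih =>
    rintro l g L _ ⟨p, hp, rfl⟩ hm g' hg' hok
    have h1 : (Path.mul f h p).muls = p.muls + 1 := rfl
    have e : f.val x l g * h.val x l g = g' l := by
      rw [hok.1, f.val_congr _ hg', h.val_congr _ hg']
    have hQ := ih (l + 1) (Function.update g l (g' l)) (L - 1) p hp (by omega) g'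
      (fun s hs => by
        rcases Nat.lt_succ_iff_lt_or_eq.mp hs with h | rfl
        · rw [Function.update_of_ne (by omega), hg' s h]
        · rw [Function.update_self]) hok.2
    refine ⟨by omega, ?_⟩
    rw [e]
    exact hQ
  | div f h next ih =>
    rintro l g L _ ⟨p, hp, rfl⟩ hm g' hg' hok
    have h1 : (Path.div f h p).muls = p.muls + 1 := rfl
    have e : f.val x l g / h.val x l g = g' l := by
      rw [hok.2.1, f.val_congr _ hg', h.val_congr _ hg']
    have hQ := ih (l + 1) (Function.update g l (g' l)) (L - 1) p hp (by omega) g'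
      (fun s hs => by
        rcases Nat.lt_succ_iff_lt_or_eq.mp hs with h | rfl
        · rw [Function.update_of_ne (by omega), hg' s h]
        · rw [Function.update_self]) hok.2.2
    refine ⟨by omega, ?_, ?_⟩
    · have := hok.1
      rwa [h.val_congr _ hg'] at this
    · rw [e]
      exact hQ
  | guess next ih =>
    rintro l g L _ ⟨p, hp, rfl⟩ hm g' hg' hok
    have hQ := ih (l + 1) (Function.update g l (g' l)) L p hp hm g'
      (fun s hs => by
        rcases Nat.lt_succ_iff_lt_or_eq.mp hs with h | rfl
        · rw [Function.update_of_ne (by omega), hg' s h]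
        · rw [Function.update_self]) hok
    exact ⟨g' l, hQ⟩
  | test f yes no ihy ihn =>
    rintro l g L p (⟨p, hp, rfl⟩ | ⟨p, hp, rfl⟩) hm g' hg' hok
    · refine Or.inl ⟨?_, ihy l g L p hp hm g' hg' hok.2⟩
      rw [← f.val_congr _ hg']
      exact hok.1
    · refine Or.inr ⟨?_, ihn l g L p hp hm g' hg' hok.2⟩
      rw [← f.val_congr _ hg']
      exact hok.1
  | choose r next ih =>
    intro l g L p hp hm g' hg' hok
    obtain ⟨i, hi⟩ := Set.mem_iUnion.mp hp
    exact ⟨i, ih i l g L p hi hm g' hg' hok⟩

/-! ### The equations of a path -/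

/-- Cut off the registers from `l` on. -/
def cut (f : LF k ι) (l : ℕ) : LF k ι := { f with r := fun s => if s < l then f.r s else 0 }

/-- A register. -/
def reg (k : Type) [Field k] (ι : Type) (l : ℕ) : LF k ι := ⟨0, 0, Pi.single l 1⟩

lemma cut_val (f : LF k ι) {l l' : ℕ} (hl : l ≤ l') (x : ι → k)
    (g : ℕ → k) : (cut f l).val x l' g = f.val x l g := by
  unfold LF.val cut
  congr 1
  simp only [Algebra.algebraMap_self, RingHom.id_apply, ite_mul, zero_mul]
  rw [← Finset.sum_filter]
  refine Finset.sum_congr ?_ fun _ _ => rfl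
  ext s
  simp only [Finset.mem_filter, Finset.mem_range]
  omega

lemma reg_val {l l' : ℕ} (hl : l < l') (x : ι → k) (g : ℕ → k) :
    (reg k ι l).val x l' g = g l := by
  unfold LF.val reg
  simp [Pi.single_apply, hl]

/-- The equations `α β = δ`. -/
def Path.msys : Path k ι → ℕ → List (LF k ι × LF k ι × LF k ι)
  | .stop, _ => []
  | .mul f h next, l => (cut f l, cut h l, reg k ι l) :: next.msys (l + 1)
  | .div f h next, l => (reg k ι l, cut h l, cut f l) :: next.msys (l + 1)
  | .guess next, l => next.msys (l + 1)
  | .isz _ next, l => next.msys l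
  | .nz _ next, l => next.msys l

/-- The linear equations. -/
def Path.lsys : Path k ι → ℕ → List (LF k ι)
  | .stop, _ => []
  | .mul _ _ next, l => next.lsys (l + 1)
  | .div _ _ next, l => next.lsys (l + 1)
  | .guess next, l => next.lsys (l + 1)
  | .isz f next, l => cut f l :: next.lsys l
  | .nz _ next, l => next.lsys l

/-- The forms which are not zero. -/
def Path.nsys : Path k ι → ℕ → List (LF k ι)
  | .stop, _ => []
  | .mul _ _ next, l => next.nsys (l + 1)
  | .div _ h next, l => cut h l :: next.nsys (l + 1)
  | .guess next, l => next.nsys (l + 1)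
  | .isz _ next, l => next.nsys l
  | .nz f next, l => cut f l :: next.nsys l

omit [Fintype ι] in
lemma Path.msys_length (p : Path k ι) : ∀ l, (p.msys l).length = p.muls := by
  induction p with
  | stop => exact fun _ => rfl
  | mul f h next ih => exact fun l => by simp [Path.msys, Path.muls, ih]
  | div f h next ih => exact fun l => by simp [Path.msys, Path.muls, ih]
  | guess next ih => exact fun l => ih _
  | isz f next ih => exact fun l => ih _
  | nz f next ih => exact fun l => ih _

omit [Field k] [Fintype ι] in
lemma Path.le_fin (p : Path k ι) : ∀ l, l ≤ p.fin l := by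
  induction p with
  | stop => exact fun _ => le_rfl
  | mul f h next ih => exact fun l => (Nat.le_succ l).trans (ih _)
  | div f h next ih => exact fun l => (Nat.le_succ l).trans (ih _)
  | guess next ih => exact fun l => (Nat.le_succ l).trans (ih _)
  | isz f next ih => exact fun l => ih _
  | nz f next ih => exact fun l => ih _

theorem Path.ok_iff (x : ι → k) (g : ℕ → k) (p : Path k ι) :
    ∀ l l', p.fin l ≤ l' → (p.Ok x g l ↔
      (∀ z ∈ p.msys l, z.1.val x l' g * z.2.1.val x l' g = z.2.2.val x l' g) ∧
      (∀ z ∈ p.lsys l, z.val x l' g = 0) ∧ (∀ z ∈ p.nsys l, z.val x l' g ≠ 0)) := by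
  induction p with
  | stop => intro l l' _; simp [Path.Ok, Path.msys, Path.lsys, Path.nsys]
  | mul f h next ih =>
    intro l l' hl
    have h0 : next.fin (l + 1) ≤ l' := hl
    have h1 := next.le_fin (l + 1)
    simp only [Path.Ok, Path.msys, Path.lsys, Path.nsys, List.forall_mem_cons, ih (l + 1) l' h0]
    rw [cut_val f (by omega), cut_val h (by omega), reg_val (by omega), eq_comm, and_assoc]
  | div f h next ih =>
    intro l l' hl
    have h0 : next.fin (l + 1) ≤ l' := hl
    have h1 := next.le_fin (l + 1)
    simp only [Path.Ok, Path.msys, Path.lsys, Path.nsys, List.forall_mem_cons, ih (l + 1) l' h0]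
    rw [cut_val f (by omega), cut_val h (by omega), reg_val (by omega)]
    constructor
    · rintro ⟨a1, a2, a3, a4, a5⟩
      exact ⟨⟨by rw [a2, div_mul_cancel₀ _ a1], a3⟩, a4, a1, a5⟩
    · rintro ⟨⟨a2, a3⟩, a4, a1, a5⟩
      exact ⟨a1, by rw [← a2, mul_div_cancel_right₀ _ a1], a3, a4, a5⟩
  | guess next ih =>
    intro l l' hl
    simp only [Path.Ok, Path.msys, Path.lsys, Path.nsys]
    exact ih (l + 1) l' hl
  | isz f next ih =>
    intro l l' hl
    have h0 : next.fin l ≤ l' := hl
    have h1 := next.le_fin l
    simp only [Path.Ok, Path.msys, Path.lsys, Path.nsys, List.forall_mem_cons, ih l l' h0]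
    rw [cut_val f (by omega)]
    tauto
  | nz f next ih =>
    intro l l' hl
    have h0 : next.fin l ≤ l' := hl
    have h1 := next.le_fin l
    simp only [Path.Ok, Path.msys, Path.lsys, Path.nsys, List.forall_mem_cons, ih l l' h0]
    rw [cut_val f (by omega)]
    tauto

end Pool.Agent.W966.Vg
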