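import Pool.Agent.W966.Vf.Sys
import Pool.Agent.W966.Vg.Path

/-!
# The component and its power series points, in general
-/

set_option autoImplicit false

namespace Pool.Agent.W966.Vg

open MvPolynomial Pool.Agent.W966.Vf

section

variable {K F : Type} [Field K] [CharZero K] [Field F] [Algebra K F] {ι κ σ J : Type} [Fintype ι]
  [Fintype κ] [Fintype σ] [Fintype J]

/-- **Power series points** near the generic point of an isolated component. -/
theorem solve {Ω₁ : Type} [Field Ω₁] [Algebra F Ω₁] (x : ι → F) (a : κ → F) (T : Set σ)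
    (w₀ : σ → Ω₁) (α β δ : J → AF K (ι ⊕ κ ⊕ σ))
    (hT : AlgebraicIndependent F (fun s : T => w₀ s))
    (hiso : IsolatedAt (ρ := ↥(Tᶜ)) fun j =>
      shiftF T w₀ (polF x a (α j) * polF x a (β j) - polF x a (δ j))) :
    ∃ (Ω : Type) (_ : Field Ω) (_ : Algebra F Ω) (_ : Algebra K Ω) (_ : IsScalarTower K F Ω)
      (w₁ : σ → Ω) (γ : ↥(Tᶜ) → Ω) (g : ↥(Tᶜ) → PowerSeries Ω) (e : ℕ) (c : ↥(Tᶜ) → J → K),
      AlgebraicIndependent F (Sum.elim (fun s : T => w₁ s) γ) ∧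
      (∀ v, PowerSeries.constantCoeff (g v) = 0) ∧
      (∀ b, ∑ j, algebraMap K (PowerSeries Ω) (c b j) *
        ((α j).val (pt x a T w₁ g) * (β j).val (pt x a T w₁ g) - (δ j).val (pt x a T w₁ g)) =
          PowerSeries.C (γ b) * PowerSeries.X ^ e) ∧
      ∀ (o : AF K (ι ⊕ κ ⊕ σ)) (z : F), aeval w₀ (polF x a o) = algebraMap F Ω₁ z →
        PowerSeries.constantCoeff (o.val (pt x a T w₁ g)) = algebraMap F Ω z := by
  classical
  let _ : Algebra K Ω₁ := ((algebraMap F Ω₁).comp (algebraMap K F)).toAlgebra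
  have : Infinite K := CharZero.infinite K
  have : Fintype ↥(Tᶜ) := Fintype.ofFinite _
  obtain ⟨c, hc⟩ := Pool.Agent.W362.VF.av ht1 K Ω₁ ↥(Tᶜ) J _ hiso
  obtain ⟨Ω, _, _, _, γ, hγ⟩ := exists_big Ω₁ ↥(Tᶜ)
  have : CharZero Ω₁ := charZero_of_injective_algebraMap (algebraMap K Ω₁).injective
  have : CharZero Ω := charZero_of_injective_algebraMap (algebraMap Ω₁ Ω).injective
  obtain ⟨e, g, he, hg, hFg⟩ := curve Ω₁ Ω ↥(Tᶜ) _ γ hc
  let _ : Algebra F Ω := ((algebraMap Ω₁ Ω).comp (algebraMap F Ω₁)).toAlgebra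
  let _ : Algebra K Ω := ((algebraMap Ω₁ Ω).comp (algebraMap K Ω₁)).toAlgebra
  have : IsScalarTower K F Ω := IsScalarTower.of_algebraMap_eq fun _ => rfl
  have : IsScalarTower F Ω₁ Ω := IsScalarTower.of_algebraMap_eq fun _ => rfl
  let ev : MvPolynomial ↥(Tᶜ) Ω₁ →+* PowerSeries Ω :=
    eval₂Hom (PowerSeries.C.comp (algebraMap Ω₁ Ω)) g
  let ψ : MvPolynomial σ F →+* PowerSeries Ω := ev.comp (shiftF T w₀).toRingHom
  have hψC : ∀ c : F, ψ (C c) = PowerSeries.C (algebraMap F Ω c) := by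
    intro c
    show ev (shiftF T w₀ (C c)) = _
    rw [shiftF, aeval_C]
    have : (algebraMap F (MvPolynomial ↥(Tᶜ) Ω₁)) c = C (algebraMap F Ω₁ c) := rfl
    rw [this]
    show eval₂ _ _ _ = _
    rw [eval₂_C]
    rfl
  have hψX : ∀ s, ψ (X s) = PowerSeries.C (algebraMap Ω₁ Ω (w₀ s)) +
      if h : s ∈ Tᶜ then g ⟨s, h⟩ else 0 := by
    intro s
    show ev (shiftF T w₀ (X s)) = _
    rw [shiftF, aeval_X, map_add]
    congr 1
    · show eval₂ _ _ _ = _
      rw [eval₂_C]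
      rfl
    · by_cases h : s ∈ Tᶜ
      · rw [dif_pos h, dif_pos h]
        show eval₂ _ _ _ = _
        rw [eval₂_X]
      · rw [dif_neg h, dif_neg h, map_zero]
  have hψK : ∀ c : K, ψ (algebraMap K (MvPolynomial σ F) c) =
      algebraMap K (PowerSeries Ω) c := by
    intro c
    have h1 : algebraMap K (MvPolynomial σ F) c = C (algebraMap K F c) := rfl
    have h2 : algebraMap K (PowerSeries Ω) c = PowerSeries.C (algebraMap K Ω c) :=
      PowerSeries.algebraMap_apply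
    rw [h1, h2, hψC]
    rfl
  have hψ : ∀ f : AF K (ι ⊕ κ ⊕ σ), ψ (polF x a f) =
      f.val (pt x a T (fun s => algebraMap Ω₁ Ω (w₀ s)) g) := by
    intro f
    rw [polF, AF.map_val ψ hψK]
    congr 1
    funext s
    rcases s with i | t | s
    · exact hψC _
    · exact hψC _
    · show ψ (X s) = _
      rw [hψX]
      rfl
  have hχ : ∀ p : MvPolynomial σ F, PowerSeries.constantCoeff (ψ p) =
      algebraMap Ω₁ Ω (aeval w₀ p) := by
    have h : (PowerSeries.constantCoeff (R := Ω)).comp ψ =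
        (algebraMap Ω₁ Ω).comp (aeval w₀ : MvPolynomial σ F →ₐ[F] Ω₁).toRingHom := by
      refine MvPolynomial.ringHom_ext ?_ ?_
      · intro c
        rw [RingHom.comp_apply, hψC, PowerSeries.constantCoeff_C]
        show _ = algebraMap Ω₁ Ω (aeval w₀ (C c))
        rw [aeval_C]
        rfl
      · intro s
        rw [RingHom.comp_apply, hψX, map_add, PowerSeries.constantCoeff_C]
        show _ = algebraMap Ω₁ Ω (aeval w₀ (X s))
        rw [aeval_X]
        by_cases h : s ∈ Tᶜ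
        · rw [dif_pos h, hg, add_zero]
        · rw [dif_neg h, map_zero, add_zero]
    exact fun p => congrArg (fun f => f p) h
  have hAI : AlgebraicIndependent F (Sum.elim (fun s : T => algebraMap Ω₁ Ω (w₀ s)) γ) := by
    have h1 := AlgebraicIndependent.sumElim_comp (A := Ω) hT hγ
    have h2 := h1.comp (Equiv.sumComm _ _) (Equiv.injective _)
    convert h2 using 1
    funext s
    rcases s with s | s <;> rfl
  refine ⟨Ω, inferInstance, inferInstance, inferInstance, inferInstance,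
    fun s => algebraMap Ω₁ Ω (w₀ s), γ, g, e, c, hAI, hg, ?_, ?_⟩
  · intro b
    rw [← hFg b]
    show _ = ev _
    rw [map_sum]
    refine Finset.sum_congr rfl fun j _ => ?_
    rw [map_mul]
    congr 1
    · show _ = eval₂ _ _ _
      rw [eval₂_C, PowerSeries.algebraMap_apply]
      rfl
    · show _ = ψ (polF x a (α j) * polF x a (β j) - polF x a (δ j))
      rw [map_sub, map_mul, hψ, hψ, hψ]
  · intro o z hz
    rw [← hψ, hχ, hz]
    rfl

end

section

variable {K F : Type} [Field K] [Field F] [IsAlgClosed F] [Algebra K F]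
  {ι κ σ V : Type} [Fintype ι] [Fintype κ] [Fintype σ] [Fintype V] {L M : ℕ} {J₂ J₃ : Type}
  [Fintype J₂] [Fintype J₃]

/-- **The component** through a solution, and the outputs on it. -/
theorem component (α β δ : Fin L → AF K (ι ⊕ κ ⊕ σ)) (lin : J₂ → AF K (ι ⊕ κ ⊕ σ))
    (ne : J₃ → AF K (ι ⊕ κ ⊕ σ)) (o : V → AF K (ι ⊕ κ ⊕ σ)) (x : ι → F) (a : κ → F) (s₀ : σ → F)
    (h0 : Sat α β δ lin ne (pnt x a s₀)) (𝒞 : Fin M → V → F)
    (sound : ∀ s, Sat α β δ lin ne (pnt x a s) → ∃ i, ∀ v, (o v).val (pnt x a s) = 𝒞 i v) :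
    ∃ (T : Set σ) (Ω₁ : Type) (_ : Field Ω₁) (_ : Algebra F Ω₁) (w₀ : σ → Ω₁),
      AlgebraicIndependent F (fun s : T => w₀ s) ∧
      IsolatedAt (ρ := ↥(Tᶜ)) (fun j : Fin L ⊕ J₂ =>
        shiftF T w₀ (polF x a ((Sum.elim α fun _ => 0 : Fin L ⊕ J₂ → AF K (ι ⊕ κ ⊕ σ)) j) *
          polF x a ((Sum.elim β fun _ => 0 : Fin L ⊕ J₂ → AF K (ι ⊕ κ ⊕ σ)) j) -
          polF x a ((Sum.elim δ lin : Fin L ⊕ J₂ → AF K (ι ⊕ κ ⊕ σ)) j))) ∧
      ∀ v, aeval w₀ (polF x a (o v)) = algebraMap F Ω₁ ((o v).val (pnt x a s₀)) := by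
  classical
  let αJ : Fin L ⊕ J₂ → AF K (ι ⊕ κ ⊕ σ) := Sum.elim α (fun _ => 0)
  let βJ : Fin L ⊕ J₂ → AF K (ι ⊕ κ ⊕ σ) := Sum.elim β (fun _ => 0)
  let δJ : Fin L ⊕ J₂ → AF K (ι ⊕ κ ⊕ σ) := Sum.elim δ lin
  let Eq : Fin L ⊕ J₂ → MvPolynomial σ F := fun j =>
    polF x a (αJ j) * polF x a (βJ j) - polF x a (δJ j)
  have hzero : ∀ w : ι ⊕ κ ⊕ σ → F, (0 : AF K (ι ⊕ κ ⊕ σ)).val w = 0 := by
    intro w
    simp [AF.val]
  have hpol : ∀ (s : σ → F) (f : AF K (ι ⊕ κ ⊕ σ)), aeval s (polF x a f) =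
      f.val (pnt x a s) := by
    intro s f
    have := AF.map_val (K := K) (aeval s : MvPolynomial σ F →ₐ[F] F).toRingHom (by
      intro c
      show aeval s (C (algebraMap K F c)) = _
      rw [aeval_C]
      rfl) f (Sum.elim (fun i => C (x i)) (Sum.elim (fun t => C (a t)) X))
    refine this.trans ?_
    congr 1
    funext i
    rcases i with i | t | i
    · show aeval s (C (x i)) = _
      rw [aeval_C]; rfl
    · show aeval s (C (a t)) = _
      rw [aeval_C]; rfl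
    · show aeval s (X i) = _
      rw [aeval_X]; rfl
  have hEq : ∀ s j, aeval s (Eq j) =
      (αJ j).val (pnt x a s) * (βJ j).val (pnt x a s) - (δJ j).val (pnt x a s) := by
    intro s j
    simp only [Eq, map_sub, map_mul, hpol]
  have hsat : ∀ s, (∀ j, aeval s (Eq j) = 0) → (∀ j, (ne j).val (pnt x a s) ≠ 0) →
      Sat α β δ lin ne (pnt x a s) := by
    intro s h1 h2
    refine ⟨fun j => ?_, fun j => ?_, h2⟩
    · have := h1 (Sum.inl j)
      rw [hEq, sub_eq_zero] at this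
      exact this
    · have := h1 (Sum.inr j)
      rw [hEq, sub_eq_zero] at this
      rw [show δJ (Sum.inr j) = lin j from rfl] at this
      rw [← this, show αJ (Sum.inr j) = 0 from rfl, hzero, zero_mul]
  have hsat' : ∀ s, Sat α β δ lin ne (pnt x a s) → ∀ j, aeval s (Eq j) = 0 := by
    intro s h j
    rw [hEq]
    rcases j with j | j
    · exact sub_eq_zero.mpr (h.mul j)
    · rw [show αJ (Sum.inr j) = 0 from rfl, hzero, zero_mul, show δJ (Sum.inr j) = lin j from rfl,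
        h.lin, sub_zero]
  -- the component
  let 𝔐 : Ideal (MvPolynomial σ F) :=
    RingHom.ker (aeval s₀ : MvPolynomial σ F →ₐ[F] F).toRingHom
  have h𝔐 : 𝔐.IsPrime := RingHom.ker_isPrime _
  have hmem𝔐 : ∀ p, p ∈ 𝔐 ↔ aeval s₀ p = 0 := fun p => RingHom.mem_ker
  have hle : Ideal.span (Set.range Eq) ≤ 𝔐 := by
    rw [Ideal.span_le]
    rintro _ ⟨j, rfl⟩
    exact (hmem𝔐 _).mpr (hsat' s₀ h0 j)
  obtain ⟨𝔓, h𝔓, h𝔓𝔐⟩ := Ideal.exists_minimalPrimes_le hle
  have hprime : 𝔓.IsPrime := h𝔓.1.1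
  have hspan : Ideal.span (Set.range Eq) ≤ 𝔓 := h𝔓.1.2
  -- the outputs on the component
  obtain ⟨i, hiS⟩ : ∃ i, ∀ v, polF x a (o v) - C (𝒞 i v) ∈ 𝔓 := by
    by_contra hcon
    push Not at hcon
    choose vb hvb using hcon
    have hne : ∀ j, polF x a (ne j) ∉ 𝔓 := by
      intro j hj
      have h1 := (hmem𝔐 _).mp (h𝔓𝔐 hj)
      rw [hpol] at h1
      exact h0.ne j h1
    have hprod : (∏ t, (polF x a (o (vb t)) - C (𝒞 t (vb t)))) * ∏ j, polF x a (ne j) ∉ 𝔓 := by
      intro hh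
      rcases hprime.mem_or_mem hh with h1 | h1
      · obtain ⟨t, -, ht⟩ := (hprime.prod_mem_iff).mp h1
        exact hvb t ht
      · obtain ⟨j, -, hj⟩ := (hprime.prod_mem_iff).mp h1
        exact hne j hj
    obtain ⟨s, hs1, hs2⟩ := exists_point 𝔓 hprime hprod
    rw [map_mul, map_prod, map_prod] at hs2
    have h2 := Finset.prod_ne_zero_iff.mp (left_ne_zero_of_mul hs2)
    have h3 := Finset.prod_ne_zero_iff.mp (right_ne_zero_of_mul hs2)
    have h4 : Sat α β δ lin ne (pnt x a s) := by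
      refine hsat s (fun j => hs1 _ (hspan (Ideal.subset_span ⟨j, rfl⟩))) fun j => ?_
      have := h3 j (Finset.mem_univ _)
      rwa [hpol] at this
    obtain ⟨i, hiS⟩ := sound s h4
    have h5 := h2 i (Finset.mem_univ _)
    apply h5
    rw [map_sub, hpol, aeval_C]
    have := hiS (vb i)
    rw [this]
    exact sub_self _
  have hval : ∀ v, (o v).val (pnt x a s₀) = 𝒞 i v := by
    intro v
    have h1 := (hmem𝔐 _).mp (h𝔓𝔐 (hiS v))
    rw [map_sub, hpol, aeval_C, sub_eq_zero] at h1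
    exact h1
  -- isolation
  have hindep : AlgebraicIndependent F (fun i : Fin 0 =>
      Ideal.Quotient.mk 𝔓 (X ((fun i : Fin 0 => i.elim0) i : σ))) := by
    have : Nontrivial (MvPolynomial σ F ⧸ 𝔓) := Ideal.Quotient.nontrivial_iff.mpr hprime.ne_top
    exact algebraicIndependent_empty_type_iff.mpr (algebraMap F _).injective
  obtain ⟨T, Ω₁, _, _, w₀, -, hw₀, hT, hiso⟩ := Pool.Agent.W597.VF.iso F σ (Fin 0)
    (Fin L ⊕ J₂) (fun i => i.elim0) Eq 𝔓 h𝔓 hindep
  refine ⟨T, Ω₁, inferInstance, inferInstance, w₀, hT, hiso, fun v => ?_⟩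
  have h1 := (hw₀ _).mpr (hiS v)
  rw [map_sub, aeval_C, sub_eq_zero] at h1
  rw [h1, hval v]

end

end Pool.Agent.W966.Vg
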